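import Mathlib

/-! Nearest point projection on a convex body. -/

namespace Pool.Agent.H821R4

open Set Metric

variable {E : Type*} [NormedAddCommGroup E] [InnerProductSpace ℝ E]

/-- `x` is the nearest point of `K` to `z`, in variational form. -/
def IsProj (K : Set E) (z x : E) : Prop :=
  x ∈ K ∧ ∀ y ∈ K, inner ℝ (z - x) (y - x) ≤ 0

lemma exists_isProj {K : Set E} (hne : K.Nonempty) (hc : IsCompact K) (hcv : Convex ℝ K) (z : E) :
    ∃ x, IsProj K z x := by
  obtain ⟨v, hv, h⟩ := exists_norm_eq_iInf_of_complete_convex hne hc.isComplete hcv z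
  exact ⟨v, hv, (norm_eq_iInf_iff_real_inner_le_zero hcv hv).1 h⟩

lemma IsProj.firm {K : Set E} {z w x y : E} (h1 : IsProj K z x) (h2 : IsProj K w y) :
    ‖x - y‖ ^ 2 ≤ inner ℝ (z - w) (x - y) := by
  have a := h1.2 y h2.1
  have b := h2.2 x h1.1
  have e1 : inner ℝ (z - x) (y - x) = - inner ℝ (z - x) (x - y) := by
    rw [← inner_neg_right]; congr 1; abel
  have e2 : inner ℝ (z - w) (x - y) - ‖x - y‖ ^ 2
      = inner ℝ (z - x) (x - y) - inner ℝ (w - y) (x - y) := by
    rw [← real_inner_self_eq_norm_sq, ← inner_sub_left, ← inner_sub_left]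
    congr 1; abel
  linarith

lemma IsProj.unique {K : Set E} {z x y : E} (h1 : IsProj K z x) (h2 : IsProj K z y) : x = y := by
  have h := h1.firm h2
  simp only [sub_self, inner_zero_left] at h
  have : ‖x - y‖ = 0 := by
    have := sq_nonneg ‖x - y‖
    exact pow_eq_zero_iff (two_ne_zero) |>.1 (le_antisymm h this)
  exact sub_eq_zero.1 (norm_eq_zero.1 this)

lemma IsProj.norm_le {K : Set E} {z w x y : E} (h1 : IsProj K z x) (h2 : IsProj K w y) :
    ‖x - y‖ ≤ ‖z - w‖ := by
  have h := h1.firm h2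
  have h' := real_inner_le_norm (z - w) (x - y)
  by_cases hx : ‖x - y‖ = 0
  · rw [hx]; exact norm_nonneg _
  · have hp : 0 < ‖x - y‖ := lt_of_le_of_ne (norm_nonneg _) (Ne.symm hx)
    nlinarith

/-- the projection as a function -/
noncomputable def proj (K : Set E) (z : E) : E :=
  open Classical in if h : ∃ x, IsProj K z x then h.choose else 0

lemma isProj_proj {K : Set E} (hne : K.Nonempty) (hc : IsCompact K) (hcv : Convex ℝ K) (z : E) :
    IsProj K z (proj K z) := by
  have h := exists_isProj hne hc hcv z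
  unfold proj
  rw [dif_pos h]
  exact h.choose_spec

lemma IsProj.proj_eq {K : Set E} {z x : E} (h : IsProj K z x) : proj K z = x := by
  have h' : ∃ x, IsProj K z x := ⟨x, h⟩
  unfold proj
  rw [dif_pos h']
  exact h'.choose_spec.unique h

lemma proj_lipschitz {K : Set E} (hne : K.Nonempty) (hc : IsCompact K) (hcv : Convex ℝ K) :
    LipschitzWith 1 (proj K) := by
  refine LipschitzWith.of_dist_le_mul fun z w => ?_
  rw [dist_eq_norm, dist_eq_norm, NNReal.coe_one, one_mul]
  exact (isProj_proj hne hc hcv z).norm_le (isProj_proj hne hc hcv w)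

/-- stability of the projection for the Hausdorff distance -/
lemma IsProj.norm_sq_le {K L : Set E} {z x y : E} (h1 : IsProj K z x) (h2 : IsProj L z y)
    {δ : ℝ} (hKL : ∀ a ∈ K, ∃ b ∈ L, ‖a - b‖ ≤ δ) (hLK : ∀ b ∈ L, ∃ a ∈ K, ‖b - a‖ ≤ δ) :
    ‖x - y‖ ^ 2 ≤ δ * (‖z - x‖ + ‖z - y‖) := by
  obtain ⟨x', hx', hx2⟩ := hKL x h1.1
  obtain ⟨y', hy', hy2⟩ := hLK y h2.1
  have a := h1.2 y' hy'
  have b := h2.2 x' hx'
  have e1 : inner ℝ (z - x) (y - x) = inner ℝ (z - x) (y' - x) + inner ℝ (z - x) (y - y') := by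
    rw [← inner_add_right]; congr 1; abel
  have e2 : inner ℝ (z - y) (x - y) = inner ℝ (z - y) (x' - y) + inner ℝ (z - y) (x - x') := by
    rw [← inner_add_right]; congr 1; abel
  have e3 : ‖x - y‖ ^ 2 = inner ℝ (z - x) (y - x) + inner ℝ (z - y) (x - y) := by
    rw [← real_inner_self_eq_norm_sq]
    have : inner ℝ (z - x) (y - x) = - inner ℝ (z - x) (x - y) := by
      rw [← inner_neg_right]; congr 1; abel
    rw [this, neg_add_eq_sub, ← inner_sub_left]
    congr 1; abel
  have c1 := real_inner_le_norm (z - x) (y - y')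
  have c2 := real_inner_le_norm (z - y) (x - x')
  have d1 : ‖z - x‖ * ‖y - y'‖ ≤ ‖z - x‖ * δ := by gcongr
  have d2 : ‖z - y‖ * ‖x - x'‖ ≤ ‖z - y‖ * δ := by gcongr
  nlinarith

/-- if `K` contains the ball of radius `r` about the origin, the projection satisfies
`r ‖z - p‖ ≤ ⟨z - p, p⟩`. -/
lemma IsProj.radius_le {K : Set E} {z x : E} (h : IsProj K z x) {r : ℝ} (hr : 0 ≤ r)
    (hK : closedBall 0 r ⊆ K) : r * ‖z - x‖ ≤ inner ℝ (z - x) x := by
  by_cases h0 : z - x = 0
  · rw [h0]; simp
  have hn : 0 < ‖z - x‖ := norm_pos_iff.2 h0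
  have hy : (r / ‖z - x‖) • (z - x) ∈ K := by
    apply hK
    rw [mem_closedBall_zero_iff, norm_smul, Real.norm_eq_abs, abs_div, abs_norm,
      div_mul_cancel₀ _ hn.ne', abs_of_nonneg hr]
  have := h.2 _ hy
  rw [inner_sub_right, inner_smul_right, real_inner_self_eq_norm_sq] at this
  have e : r / ‖z - x‖ * ‖z - x‖ ^ 2 = r * ‖z - x‖ := by
    field_simp
  rw [e] at this
  linarith

/-- valuation property, one half -/
lemma proj_union_aux {K L : Set E} (hK : IsClosed K) (hL : IsClosed L)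
    (hU : Convex ℝ (K ∪ L)) {z u v : E} (hu : IsProj (K ∪ L) z u) (huK : u ∈ K)
    (hv : IsProj L z v) : v ∈ K := by
  by_contra hvK
  -- segment from u to v
  let w : ℝ → E := fun s => u + s • (v - u)
  have hwc : Continuous w := by fun_prop
  have hwM : ∀ s ∈ Icc (0:ℝ) 1, w s ∈ K ∪ L := by
    intro s hs
    have := hU (Or.inl huK : u ∈ K ∪ L) (Or.inr hv.1 : v ∈ K ∪ L) (by linarith [hs.2] : 0 ≤ 1 - s) hs.1
      (by ring)
    convert this using 1
    simp only [w]
    module
  let S : Set ℝ := Icc (0:ℝ) 1 ∩ w ⁻¹' K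
  have hSc : IsCompact S := isCompact_Icc.inter_right (hK.preimage hwc)
  have hSne : S.Nonempty := ⟨0, by simp [S, w, huK]⟩
  obtain ⟨t, htS, ht⟩ := hSc.exists_isMaxOn hSne continuous_id.continuousOn
  have ht1 : t < 1 := by
    rcases lt_or_eq_of_le htS.1.2 with h | h
    · exact h
    · exfalso; apply hvK
      have := htS.2
      simp only [mem_preimage, w, h, one_smul] at this
      simpa using this
  -- w t ∈ L
  have hwL : w t ∈ L := by
    have hcl : w t ∈ closure L := by
      have htc : t ∈ closure (Ioo t 1) := by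
        rw [closure_Ioo ht1.ne]; exact ⟨le_rfl, ht1.le⟩
      have := image_closure_subset_closure_image hwc (mem_image_of_mem w htc)
      refine closure_mono ?_ this
      rintro _ ⟨s, hs, rfl⟩
      have hs01 : s ∈ Icc (0:ℝ) 1 := ⟨by linarith [htS.1.1, hs.1], hs.2.le⟩
      rcases hwM s hs01 with h | h
      · exfalso
        have := ht (show s ∈ S from ⟨hs01, h⟩)
        simp only [id, mem_ofPred_eq] at this
        linarith [hs.1]
      · exact h
    rwa [hL.closure_eq] at hcl
  -- inner products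
  have h1 := hv.2 (w t) hwL
  have h2 := hu.2 v (Or.inr hv.1)
  have e1 : w t - v = (1 - t) • (u - v) := by simp only [w]; module
  rw [e1, inner_smul_right] at h1
  have h3 : inner ℝ (z - v) (u - v) ≤ 0 := by
    by_contra h
    push Not at h
    have : 0 < (1 - t) * inner ℝ (z - v) (u - v) := mul_pos (by linarith) h
    linarith
  have e3 : ‖u - v‖ ^ 2 = inner ℝ (z - u) (v - u) + inner ℝ (z - v) (u - v) := by
    rw [← real_inner_self_eq_norm_sq]
    have : inner ℝ (z - u) (v - u) = - inner ℝ (z - u) (u - v) := by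
      rw [← inner_neg_right]; congr 1; abel
    rw [this, neg_add_eq_sub, ← inner_sub_left]
    congr 1; abel
  have : ‖u - v‖ = 0 := by
    have := sq_nonneg ‖u - v‖
    exact pow_eq_zero_iff (two_ne_zero) |>.1 (le_antisymm (by linarith) this)
  have huv : u = v := sub_eq_zero.1 (norm_eq_zero.1 this)
  exact hvK (huv ▸ huK)

/-- valuation property of the projection -/
lemma proj_union_inter {K L : Set E} (hK : IsCompact K) (hL : IsCompact L)
    (hKc : Convex ℝ K) (hLc : Convex ℝ L) (hKn : K.Nonempty) (hLn : L.Nonempty)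
    (hU : Convex ℝ (K ∪ L)) (z : E) :
    (proj (K ∪ L) z = proj K z ∧ proj (K ∩ L) z = proj L z) ∨
    (proj (K ∪ L) z = proj L z ∧ proj (K ∩ L) z = proj K z) := by
  have hu := isProj_proj (hKn.mono subset_union_left) (hK.union hL) hU z
  have hk := isProj_proj hKn hK hKc z
  have hl := isProj_proj hLn hL hLc z
  rcases hu.1 with h | h
  · left
    have hK' : IsProj K z (proj (K ∪ L) z) := ⟨h, fun y hy => hu.2 y (Or.inl hy)⟩
    have hv := proj_union_aux hK.isClosed hL.isClosed hU hu h hl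
    refine ⟨hK'.unique hk, ?_⟩
    have : IsProj (K ∩ L) z (proj L z) := ⟨⟨hv, hl.1⟩, fun y hy => hl.2 y hy.2⟩
    exact this.proj_eq
  · right
    have hL' : IsProj L z (proj (K ∪ L) z) := ⟨h, fun y hy => hu.2 y (Or.inr hy)⟩
    have hv := proj_union_aux hL.isClosed hK.isClosed (by rwa [union_comm] at hU)
      (by rwa [union_comm] at hu ⊢) (by rwa [union_comm] at h ⊢) hk
    refine ⟨hL'.unique hl, ?_⟩
    have : IsProj (K ∩ L) z (proj K z) := ⟨⟨hk.1, hv⟩, fun y hy => hk.2 y hy.1⟩
    exact this.proj_eq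

end Pool.Agent.H821R4
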