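import Mathlib
import Pool.Agent.H821R4.Zeta

/-! Change of variables: `|det B| * zeta (B⁻¹ K)` is an explicit polynomial in `B B†`. -/

namespace Pool.Agent.H821R4

open Set Metric MeasureTheory Filter Topology

variable {E : Type*} [NormedAddCommGroup E] [InnerProductSpace ℝ E]

lemma firm_deriv {K : Set E} (h : IsB K) {z : E} (hd : DifferentiableAt ℝ (proj K) z) (v : E) :
    ‖fderiv ℝ (proj K) z v‖ ^ 2 ≤ inner ℝ v (fderiv ℝ (proj K) z v) := by
  have h1 : HasDerivAt (fun t : ℝ => proj K (z + t • v)) (fderiv ℝ (proj K) z v) 0 := by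
    have := hd.hasFDerivAt.hasLineDerivAt v
    exact this
  have h2 := hasDerivAt_iff_tendsto_slope_zero.1 h1
  simp only [zero_add, zero_smul, add_zero] at h2
  have h3 : Tendsto (fun t : ℝ => ‖t⁻¹ • (proj K (z + t • v) - proj K z)‖ ^ 2) (𝓝[≠] 0)
      (𝓝 (‖fderiv ℝ (proj K) z v‖ ^ 2)) := h2.norm.pow 2
  have h4 : Tendsto (fun t : ℝ => inner ℝ v (t⁻¹ • (proj K (z + t • v) - proj K z))) (𝓝[≠] 0)
      (𝓝 (inner ℝ v (fderiv ℝ (proj K) z v))) := tendsto_const_nhds.inner h2
  refine le_of_tendsto_of_tendsto h3 h4 ?_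
  filter_upwards [self_mem_nhdsWithin] with t ht
  have ht : t ≠ 0 := ht
  have hf := (h.proj (z + t • v)).firm (h.proj z)
  rw [add_sub_cancel_left, inner_smul_left] at hf
  rw [inner_smul_right, norm_smul, mul_pow, Real.norm_eq_abs, sq_abs]
  simp only [conj_trivial] at hf
  have ht2 : 0 < t ^ 2 := by positivity
  have e1 : t⁻¹ ^ 2 * ‖proj K (z + t • v) - proj K z‖ ^ 2
      ≤ t⁻¹ ^ 2 * (t * inner ℝ v (proj K (z + t • v) - proj K z)) := by gcongr
  have e2 : t⁻¹ ^ 2 * (t * inner ℝ v (proj K (z + t • v) - proj K z))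
      = t⁻¹ * inner ℝ v (proj K (z + t • v) - proj K z) := by
    field_simp
  linarith

variable [FiniteDimensional ℝ E]

/-- the map of the change of variables -/
noncomputable def Tmap (K : Set E) (B : E ≃L[ℝ] E) (z : E) : E :=
  ContinuousLinearMap.adjoint (B : E →L[ℝ] E) (z - proj K z) + B.symm (proj K z)

lemma adj_inj (B : E ≃L[ℝ] E) : Function.Injective (ContinuousLinearMap.adjoint (B : E →L[ℝ] E)) := by
  intro x y hxy
  have h : ∀ w : E, inner ℝ (x - y) w = 0 := by
    intro w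
    have h1 : inner ℝ (ContinuousLinearMap.adjoint (B : E →L[ℝ] E) (x - y)) (B.symm w)
        = inner ℝ (x - y) ((B : E →L[ℝ] E) (B.symm w)) :=
      ContinuousLinearMap.adjoint_inner_left _ _ _
    rw [map_sub, hxy, sub_self, inner_zero_left] at h1
    simpa using h1.symm
  exact sub_eq_zero.1 (inner_self_eq_zero.1 (h (x - y)))

lemma Tmap_proj {K : Set E} (h : IsB K) (B : E ≃L[ℝ] E) (z : E) :
    IsProj (B.symm '' K) (Tmap K B z) (B.symm (proj K z)) := by
  refine ⟨⟨_, (h.proj z).1, rfl⟩, ?_⟩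
  rintro _ ⟨y, hy, rfl⟩
  unfold Tmap
  rw [add_sub_cancel_right, ContinuousLinearMap.adjoint_inner_left, ← map_sub]
  simp only [ContinuousLinearEquiv.coe_coe, ContinuousLinearEquiv.apply_symm_apply]
  exact (h.proj z).2 y hy

lemma Tmap_intg {K : Set E} (h : IsB K) (B : E ≃L[ℝ] E) (z : E) :
    intg (B.symm '' K) (Tmap K B z) = intg K z := by
  unfold intg
  rw [(Tmap_proj h B z).proj_eq]
  unfold Tmap
  rw [add_sub_cancel_right, ContinuousLinearMap.adjoint_inner_left]
  simp

lemma Tmap_inj {K : Set E} (h : IsB K) (B : E ≃L[ℝ] E) : Function.Injective (Tmap K B) := by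
  intro z w hzw
  have h1 := (Tmap_proj h B z).proj_eq
  have h2 := (Tmap_proj h B w).proj_eq
  rw [hzw, h2] at h1
  have h3 : proj K w = proj K z := B.symm.injective h1
  unfold Tmap at hzw
  rw [h3] at hzw
  have h4 := adj_inj B (add_right_cancel hzw)
  exact sub_left_injective h4

lemma Tmap_surj {K : Set E} (h : IsB K) (B : E ≃L[ℝ] E) : Function.Surjective (Tmap K B) := by
  intro y
  have hs : Function.Surjective (ContinuousLinearMap.adjoint (B : E →L[ℝ] E)) := by
    have := LinearMap.injective_iff_surjective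
      (f := (ContinuousLinearMap.adjoint (B : E →L[ℝ] E)).toLinearMap)
    exact this.1 (adj_inj B)
  have hK' : IsB (B.symm '' K) := h.image B.symm
  have hy := hK'.proj y
  obtain ⟨ξ, hξ⟩ := hs (y - proj (B.symm '' K) y)
  obtain ⟨x, hx, hx2⟩ := hy.1
  have hz : IsProj K (ξ + x) x := by
    refine ⟨hx, fun w hw => ?_⟩
    rw [add_sub_cancel_right]
    have := hy.2 (B.symm w) ⟨w, hw, rfl⟩
    rw [← hξ, ← hx2, ← map_sub, ContinuousLinearMap.adjoint_inner_left] at this
    simpa using this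
  refine ⟨ξ + x, ?_⟩
  unfold Tmap
  rw [hz.proj_eq, add_sub_cancel_right, hξ, hx2]
  abel

lemma Tmap_lip {K : Set E} (h : IsB K) (B : E ≃L[ℝ] E) : ∃ C, LipschitzWith C (Tmap K B) := by
  have h1 : LipschitzWith 1 (proj K) := proj_lipschitz h.ne h.cpt h.cvx
  have h2 : LipschitzWith (1 + 1) (fun z => z - proj K z) := LipschitzWith.id.sub h1
  exact ⟨_, ((ContinuousLinearMap.adjoint (B : E →L[ℝ] E)).lipschitz.comp h2).add
    ((B.symm : E →L[ℝ] E).lipschitz.comp h1)⟩

/-- the derivative of `Tmap` -/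
noncomputable def Tder (K : Set E) (B : E ≃L[ℝ] E) (z : E) : E →L[ℝ] E :=
  (ContinuousLinearMap.adjoint (B : E →L[ℝ] E)).comp
    (ContinuousLinearMap.id ℝ E - fderiv ℝ (proj K) z) +
    (B.symm : E →L[ℝ] E).comp (fderiv ℝ (proj K) z)

lemma Tmap_deriv {K : Set E} (B : E ≃L[ℝ] E) {z : E}
    (hd : DifferentiableAt ℝ (proj K) z) : HasFDerivAt (Tmap K B) (Tder K B z) z := by
  have h1 : HasFDerivAt (fun z => z - proj K z)
      (ContinuousLinearMap.id ℝ E - fderiv ℝ (proj K) z) z :=
    (hasFDerivAt_id z).sub hd.hasFDerivAt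
  exact ((ContinuousLinearMap.adjoint (B : E →L[ℝ] E)).hasFDerivAt.comp z h1).add
    ((B.symm : E →L[ℝ] E).hasFDerivAt.comp z hd.hasFDerivAt)

/-- the operator whose determinant is the density -/
noncomputable def Mop (A P : E →L[ℝ] E) : E →L[ℝ] E :=
  A.comp (ContinuousLinearMap.id ℝ E - P) + P

lemma det_pos_of_path (B : E ≃L[ℝ] E) (P : E →L[ℝ] E) (hP : ∀ v, ‖P v‖ ^ 2 ≤ inner ℝ v (P v)) :
    0 < (Mop ((B : E →L[ℝ] E).comp (ContinuousLinearMap.adjoint (B : E →L[ℝ] E))) P).det := by
  let A : ℝ → E →L[ℝ] E := fun t => (1 - t) • ContinuousLinearMap.id ℝ E +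
    t • ((B : E →L[ℝ] E).comp (ContinuousLinearMap.adjoint (B : E →L[ℝ] E)))
  let f : ℝ → ℝ := fun t => (Mop (A t) P).det
  have hA : Continuous A := by fun_prop
  have hM : Continuous (fun t => Mop (A t) P) := by
    unfold Mop
    exact (hA.clm_comp continuous_const).add continuous_const
  have hf : Continuous f := ContinuousLinearMap.continuous_det.comp hM
  have hne : ∀ t ∈ Icc (0:ℝ) 1, f t ≠ 0 := by
    intro t ht h0
    have hker : ∃ v : E, v ≠ 0 ∧ Mop (A t) P v = 0 := by
      by_contra hcon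
      push Not at hcon
      have hinj : Function.Injective (Mop (A t) P) := by
        rw [injective_iff_map_eq_zero]
        intro v hv
        by_contra hv0
        exact hcon v hv0 hv
      have hu : IsUnit (LinearMap.det (Mop (A t) P : E →ₗ[ℝ] E)) := by
        rw [← LinearMap.isUnit_iff_isUnit_det]
        rw [LinearMap.isUnit_iff_ker_eq_bot]
        exact LinearMap.ker_eq_bot.2 hinj
      exact hu.ne_zero h0
    obtain ⟨v, hv, hv0⟩ := hker
    set a := v - P v with ha
    have hab : 0 ≤ inner ℝ a (P v) := by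
      rw [ha, inner_sub_left, real_inner_self_eq_norm_sq]
      linarith [hP v]
    have h1 : A t a + P v = 0 := by
      rw [ha, map_sub]
      simpa [Mop] using hv0
    have h2 : inner ℝ (A t a) a = - inner ℝ a (P v) := by
      rw [eq_neg_of_add_eq_zero_left h1, inner_neg_left, real_inner_comm]
    have h3 : inner ℝ (A t a) a = (1 - t) * ‖a‖ ^ 2 +
        t * ‖ContinuousLinearMap.adjoint (B : E →L[ℝ] E) a‖ ^ 2 := by
      simp only [A, add_apply, smul_apply,
        ContinuousLinearMap.id_apply, ContinuousLinearMap.comp_apply, inner_add_left,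
        inner_smul_left, conj_trivial, real_inner_self_eq_norm_sq]
      rw [← ContinuousLinearMap.adjoint_inner_right, real_inner_self_eq_norm_sq]
    have ha0 : a = 0 := by
      have p1 : 0 ≤ (1 - t) * ‖a‖ ^ 2 := mul_nonneg (by linarith [ht.2]) (sq_nonneg _)
      have p2 : 0 ≤ t * ‖ContinuousLinearMap.adjoint (B : E →L[ℝ] E) a‖ ^ 2 :=
        mul_nonneg ht.1 (sq_nonneg _)
      have q1 : (1 - t) * ‖a‖ ^ 2 = 0 := by linarith
      have q2 : t * ‖ContinuousLinearMap.adjoint (B : E →L[ℝ] E) a‖ ^ 2 = 0 := by linarith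
      rcases mul_eq_zero.1 q1 with h | h
      · have : t = 1 := by linarith
        rw [this, one_mul] at q2
        have : ContinuousLinearMap.adjoint (B : E →L[ℝ] E) a = 0 :=
          norm_eq_zero.1 (pow_eq_zero_iff two_ne_zero |>.1 q2)
        exact adj_inj B (by rw [this, map_zero])
      · exact norm_eq_zero.1 (pow_eq_zero_iff two_ne_zero |>.1 h)
    have hb0 : P v = 0 := by
      rw [ha0, map_zero, zero_add] at h1; exact h1
    apply hv
    have hv1 : v = a + P v := by rw [ha]; abel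
    rw [hv1, ha0, hb0, add_zero]
  have h0 : f 0 = 1 := by
    simp only [f, A, Mop, sub_zero, one_smul, zero_smul, add_zero, ContinuousLinearMap.id_comp,
      sub_add_cancel]
    simp [ContinuousLinearMap.det]
  have h1 : f 1 = (Mop ((B : E →L[ℝ] E).comp (ContinuousLinearMap.adjoint (B : E →L[ℝ] E))) P).det := by
    simp [f, A]
  rw [← h1]
  by_contra hcon
  push Not at hcon
  obtain ⟨t, ht, ht0⟩ := intermediate_value_Icc' (zero_le_one) hf.continuousOn
    (show (0:ℝ) ∈ Icc (f 1) (f 0) from ⟨hcon, by rw [h0]; norm_num⟩)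
  exact hne t ht ht0

lemma Tder_det (K : Set E) (B : E ≃L[ℝ] E) (z : E) :
    (B : E →L[ℝ] E).det * (Tder K B z).det =
    (Mop ((B : E →L[ℝ] E).comp (ContinuousLinearMap.adjoint (B : E →L[ℝ] E)))
      (fderiv ℝ (proj K) z)).det := by
  have : Mop ((B : E →L[ℝ] E).comp (ContinuousLinearMap.adjoint (B : E →L[ℝ] E)))
      (fderiv ℝ (proj K) z) = (B : E →L[ℝ] E).comp (Tder K B z) := by
    ext v
    simp [Mop, Tder]
  rw [this]
  simp only [ContinuousLinearMap.det]
  exact (LinearMap.det_comp (B : E →L[ℝ] E).toLinearMap (Tder K B z).toLinearMap).symm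

variable [MeasurableSpace E] [BorelSpace E]

lemma lip_null {f : E → E} {C : NNReal} (hf : LipschitzWith C f) {s : Set E}
    (hs : volume s = 0) : volume (f '' s) = 0 := by
  have h1 : (volume : Measure E) ≪ Measure.hausdorffMeasure (Module.finrank ℝ E) :=
    Measure.absolutelyContinuous_isAddHaarMeasure _ _
  have h2 : (Measure.hausdorffMeasure (Module.finrank ℝ E) : Measure E) ≪ volume :=
    Measure.absolutelyContinuous_isAddHaarMeasure _ _
  apply h1
  have h3 := hf.hausdorffMeasure_image_le (d := (Module.finrank ℝ E : ℝ)) (by positivity) s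
  rw [h2 hs, mul_zero] at h3
  exact le_antisymm h3 (by simp)

lemma cov {K : Set E} (h : IsB K) (B : E ≃L[ℝ] E) :
    |(B : E →L[ℝ] E).det| * zeta (B.symm '' K) =
    ∫ z, (Mop ((B : E →L[ℝ] E).comp (ContinuousLinearMap.adjoint (B : E →L[ℝ] E)))
      (fderiv ℝ (proj K) z)).det * intg K z := by
  set s : Set E := {z | DifferentiableAt ℝ (proj K) z} with hs
  have hsm : MeasurableSet s := measurableSet_of_differentiableAt ℝ (proj K)
  have hae : ∀ᵐ z : E, z ∈ s := (proj_lipschitz h.ne h.cpt h.cvx).ae_differentiableAt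
  have hnull : volume sᶜ = 0 := hae
  obtain ⟨C, hC⟩ := Tmap_lip h B
  have hnull2 : volume (Tmap K B '' sᶜ) = 0 := lip_null hC hnull
  have himg : (Tmap K B '' s : Set E) =ᵐ[volume] (univ : Set E) := by
    rw [ae_eq_univ, ← image_compl_eq ⟨Tmap_inj h B, Tmap_surj h B⟩]
    exact hnull2
  have h1 : zeta (B.symm '' K) = ∫ y in Tmap K B '' s, intg (B.symm '' K) y := by
    rw [setIntegral_congr_set himg, setIntegral_univ]; rfl
  have h2 := integral_image_eq_integral_abs_det_fderiv_smul volume hsm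
    (fun z hz => (Tmap_deriv B (show DifferentiableAt ℝ (proj K) z from hz)).hasFDerivWithinAt)
    (Tmap_inj h B).injOn (intg (B.symm '' K))
  rw [h1, h2, ← integral_const_mul]
  have h3 : ∫ z, (Mop ((B : E →L[ℝ] E).comp (ContinuousLinearMap.adjoint (B : E →L[ℝ] E)))
      (fderiv ℝ (proj K) z)).det * intg K z = ∫ z in s,
      (Mop ((B : E →L[ℝ] E).comp (ContinuousLinearMap.adjoint (B : E →L[ℝ] E)))
      (fderiv ℝ (proj K) z)).det * intg K z := by
    rw [setIntegral_congr_set (ae_eq_univ.2 hnull), setIntegral_univ]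
  rw [h3]
  refine setIntegral_congr_fun hsm fun z hz => ?_
  simp only [smul_eq_mul]
  rw [Tmap_intg h, ← mul_assoc, ← abs_mul, Tder_det, abs_of_pos]
  exact det_pos_of_path B _ (firm_deriv h hz)

end Pool.Agent.H821R4
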