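import Mathlib
import Pool.Agent.H821R4.Cov

/-! The quadratic part of the density and the tensor-valued functional. -/

namespace Pool.Agent.H821R4

open Set Metric MeasureTheory Filter Topology Matrix

set_option maxHeartbeats 4000000

/-- four-dimensional Euclidean space -/
abbrev E4 := EuclideanSpace ℝ (Fin 4)

/-- real `4 × 4` matrices -/
abbrev Mat := Matrix (Fin 4) (Fin 4) ℝ

/-- tensors of order four -/
abbrev T4 := EuclideanSpace ℝ (Fin 4 × Fin 4 × Fin 4 × Fin 4)

lemma integrable_comp {F : Type*} [NormedAddCommGroup F] [NormedSpace ℝ F]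
    {K : Set E4} (h : IsB K) {G : (E4 →L[ℝ] E4) → F} (hG : Continuous G) :
    Integrable (fun z => intg K z • G (fderiv ℝ (proj K) z)) := by
  obtain ⟨r, hr, hr2⟩ := h.ball
  obtain ⟨R, hR, hR2⟩ := h.bdd
  have hcomp : IsCompact (closedBall (0 : E4 →L[ℝ] E4) 1) := isCompact_closedBall _ _
  obtain ⟨C, hC⟩ := (hcomp.image hG).isBounded.exists_norm_le
  have hC0 : 0 ≤ C := (norm_nonneg _).trans (hC (G 0) ⟨0, by simp, rfl⟩)
  have hb : ∀ z, ‖G (fderiv ℝ (proj K) z)‖ ≤ C := by
    intro z
    apply hC
    refine ⟨_, ?_, rfl⟩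
    rw [mem_closedBall_zero_iff]
    have := norm_fderiv_le_of_lipschitz ℝ (proj_lipschitz h.ne h.cpt h.cvx) (x₀ := z)
    simpa using this
  have hmeas : AEStronglyMeasurable (fun z => intg K z • G (fderiv ℝ (proj K) z)) volume := by
    have h1 : StronglyMeasurable (fderiv ℝ (proj K)) :=
      (measurable_fderiv ℝ (proj K)).stronglyMeasurable
    exact ((intg_cont h).stronglyMeasurable.smul (hG.comp_stronglyMeasurable h1)).aestronglyMeasurable
  refine ((ind_integrable (E := E4) (R + 1 / r)).smul C).mono' hmeas (Eventually.of_forall fun z => ?_)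
  rw [norm_smul]
  have h1 := intg_le_ind h hr hr2 hR2 z
  have h2 := hb z
  have h3 := norm_nonneg (intg K z)
  have h4 := norm_nonneg (G (fderiv ℝ (proj K) z))
  simp only [Pi.smul_apply, smul_eq_mul]
  calc ‖intg K z‖ * ‖G (fderiv ℝ (proj K) z)‖ ≤ ‖intg K z‖ * C := by gcongr
    _ ≤ (closedBall (0:E4) (R + 1 / r)).indicator (fun _ => (1:ℝ)) z * C := by gcongr
    _ = _ := mul_comm _ _

/-- matrix of an operator -/
noncomputable def mat (P : E4 →L[ℝ] E4) : Mat := (toEuclideanCLM (n := Fin 4) (𝕜 := ℝ)).symm P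

lemma mat_cont : Continuous mat := by
  have : mat = fun P => (((toEuclideanCLM (n := Fin 4) (𝕜 := ℝ)).symm.toAlgEquiv.toLinearEquiv :
      (E4 →L[ℝ] E4) ≃ₗ[ℝ] Mat) P) := rfl
  rw [this]
  exact LinearMap.continuous_of_finiteDimensional
    (((toEuclideanCLM (n := Fin 4) (𝕜 := ℝ)).symm.toAlgEquiv.toLinearEquiv :
      (E4 →L[ℝ] E4) ≃ₗ[ℝ] Mat).toLinearMap)

/-- density tensor -/
noncomputable def dens (P : Mat) : T4 :=
  WithLp.toLp 2 (fun p => if p.1 < p.2.1 then
    (1 / 2 : ℝ) * ((P.updateRow p.1 ((1 - P) p.2.2.1)).updateRow p.2.1 ((1 - P) p.2.2.2)).det else 0)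

lemma dens_cont : Continuous dens := by
  unfold dens
  refine (PiLp.continuous_toLp 2 _).comp ?_
  refine continuous_pi fun p => ?_
  by_cases hp : p.1 < p.2.1
  · simp only [hp, if_true]
    refine continuous_const.mul ?_
    apply Continuous.matrix_det
    refine Continuous.matrix_updateRow _ (Continuous.matrix_updateRow _ continuous_id ?_) ?_
    · exact (continuous_apply _).comp (continuous_const.sub continuous_id)
    · exact (continuous_apply _).comp (continuous_const.sub continuous_id)
  · simp only [hp, if_false]; exact continuous_const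

/-- the second exterior power of a matrix, as a tensor -/
noncomputable def lam (A : Mat) : T4 :=
  WithLp.toLp 2 (fun p => A p.1 p.2.2.1 * A p.2.1 p.2.2.2 - A p.1 p.2.2.2 * A p.2.1 p.2.2.1)

/-- interpolation weights extracting the quadratic part of a quartic polynomial -/
noncomputable def wt : Fin 5 → ℝ := ![71 / 24, -59 / 6, 49 / 4, -41 / 6, 35 / 24]

lemma wt_spec (m : ℕ) (hm : m ≤ 4) :
    ∑ k : Fin 5, wt k * ((k : ℝ) + 1) ^ m = if m = 2 then 1 else 0 := by
  interval_cases m <;> simp [wt, Fin.sum_univ_five] <;> norm_num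

lemma det_smul_add (c : ℝ) (X Y : Mat) :
    (c • X + Y).det = ∑ s : Finset (Fin 4), c ^ s.card * (Matrix.of (s.piecewise X Y)).det := by
  have h := (detRowAlternating (n := Fin 4) (R := ℝ)).toMultilinearMap.map_add_univ (c • X) Y
  have h0 : (c • X + Y).det = (detRowAlternating (n := Fin 4) (R := ℝ)).toMultilinearMap
    ((c • X : Fin 4 → Fin 4 → ℝ) + Y) := rfl
  refine h0.trans (h.trans ?_)
  refine Finset.sum_congr rfl fun s _ => ?_
  have h1 := (detRowAlternating (n := Fin 4) (R := ℝ)).toMultilinearMap.map_piecewise_smul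
    (fun _ => c) (s.piecewise X Y) s
  simp only [Finset.prod_const, smul_eq_mul] at h1
  have h2 : s.piecewise (fun i => c • s.piecewise X Y i) (s.piecewise X Y) =
      s.piecewise ((c • X : Fin 4 → Fin 4 → ℝ)) Y := by
    ext i j
    by_cases hi : i ∈ s
    · simp only [Finset.piecewise, hi, if_true]; rfl
    · simp only [Finset.piecewise, hi, if_false]
  rw [h2] at h1
  exact h1

lemma quad_extract (X Y : Mat) :
    ∑ k : Fin 5, wt k * (((k : ℝ) + 1) • X + Y).det =
    ∑ s ∈ Finset.powersetCard 2 (Finset.univ : Finset (Fin 4)), (Matrix.of (s.piecewise X Y)).det := by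
  have h1 : ∀ k : Fin 5, wt k * (((k : ℝ) + 1) • X + Y).det =
      ∑ s : Finset (Fin 4), (wt k * ((k : ℝ) + 1) ^ s.card) * (Matrix.of (s.piecewise X Y)).det := by
    intro k
    rw [det_smul_add, Finset.mul_sum]
    refine Finset.sum_congr rfl fun s _ => by ring
  simp only [h1]
  rw [Finset.sum_comm]
  have h2 : ∀ s : Finset (Fin 4), ∑ k : Fin 5, (wt k * ((k : ℝ) + 1) ^ s.card) *
      (Matrix.of (s.piecewise X Y)).det = if s.card = 2 then (Matrix.of (s.piecewise X Y)).det else 0 := by
    intro s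
    rw [← Finset.sum_mul, wt_spec s.card (by simpa using Finset.card_le_univ s)]
    split_ifs <;> simp
  simp only [h2]
  rw [← Finset.sum_filter]
  congr 1
  ext s
  simp [Finset.mem_powersetCard]

lemma sum_pairs (F : Finset (Fin 4) → ℝ) :
    ∑ s ∈ Finset.powersetCard 2 (Finset.univ : Finset (Fin 4)), F s =
    ∑ i : Fin 4, ∑ j : Fin 4, if i < j then F {i, j} else 0 := by
  have h : Finset.powersetCard 2 (Finset.univ : Finset (Fin 4)) =
    {{0,1},{0,2},{0,3},{1,2},{1,3},{2,3}} := by decide
  rw [h]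
  rw [Finset.sum_insert (by decide), Finset.sum_insert (by decide), Finset.sum_insert (by decide),
    Finset.sum_insert (by decide), Finset.sum_insert (by decide), Finset.sum_singleton]
  simp [Fin.sum_univ_four]
  ring

/-- two rows replaced -/
lemma piecewise_pair (X Y : Mat) {i j : Fin 4} (hij : i ≠ j) :
    Matrix.of (({i, j} : Finset (Fin 4)).piecewise X Y) = (Y.updateRow i (X i)).updateRow j (X j) := by
  ext a b
  simp only [Matrix.of_apply, Finset.piecewise, Finset.mem_insert, Finset.mem_singleton,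
    Matrix.updateRow_apply]
  by_cases ha : a = j
  · subst ha; simp
  · by_cases hb : a = i
    · subst hb; simp [ha]
    · simp [ha, hb]

lemma ml_two (f : MultilinearMap ℝ (fun _ : Fin 4 => (Fin 4 → ℝ)) ℝ) (Y Q : Fin 4 → Fin 4 → ℝ)
    (a b : Fin 4 → ℝ) {i j : Fin 4} (hij : i ≠ j) :
    f (Function.update (Function.update Y i (∑ k, a k • Q k)) j (∑ l, b l • Q l)) =
    ∑ k, ∑ l, a k * b l * f (Function.update (Function.update Y i (Q k)) j (Q l)) := by
  rw [MultilinearMap.map_update_sum]
  rw [Finset.sum_comm' (t' := Finset.univ) (s' := fun _ => Finset.univ) (by simp)]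
  refine Finset.sum_congr rfl fun l _ => ?_
  rw [MultilinearMap.map_update_smul, Function.update_comm hij, MultilinearMap.map_update_sum,
    Finset.smul_sum]
  refine Finset.sum_congr rfl fun k _ => ?_
  rw [MultilinearMap.map_update_smul, Function.update_comm hij.symm, smul_smul, smul_eq_mul]
  ring

lemma det_two_rows (A Q Y : Mat) {i j : Fin 4} (hij : i ≠ j) :
    ((Y.updateRow i ((A * Q) i)).updateRow j ((A * Q) j)).det =
    ∑ k, ∑ l, (A i k * A j l - A i l * A j k) *
      ((1 / 2 : ℝ) * ((Y.updateRow i (Q k)).updateRow j (Q l)).det) := by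
  have hrow : ∀ a, (A * Q) a = ∑ k, A a k • Q k := by
    intro a; ext b
    simp [Matrix.mul_apply, Finset.sum_apply]
  have e1 : ((Y.updateRow i ((A * Q) i)).updateRow j ((A * Q) j)).det =
      ∑ k, ∑ l, A i k * A j l * ((Y.updateRow i (Q k)).updateRow j (Q l)).det := by
    rw [hrow, hrow]
    exact ml_two (detRowAlternating (n := Fin 4) (R := ℝ)).toMultilinearMap Y Q (A i) (A j) hij
  rw [e1]
  have hanti : ∀ k l, ((Y.updateRow i (Q l)).updateRow j (Q k)).det =
      - ((Y.updateRow i (Q k)).updateRow j (Q l)).det := by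
    intro k l
    have := (detRowAlternating (n := Fin 4) (R := ℝ)).map_swap
      ((Y.updateRow i (Q k)).updateRow j (Q l)) hij
    have h2 : (((Y.updateRow i (Q k)).updateRow j (Q l)) ∘ Equiv.swap i j : Fin 4 → Fin 4 → ℝ) =
      ((Y.updateRow i (Q l)).updateRow j (Q k)) := by
      ext a b
      simp only [Function.comp, Matrix.updateRow_apply]
      by_cases ha : a = j
      · subst ha; simp [hij]
      · by_cases hb : a = i
        · subst hb; simp [ha]
        · rw [Equiv.swap_apply_of_ne_of_ne hb ha]; simp [ha, hb]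
    rw [h2] at this
    exact this
  have e3 : ∑ k, ∑ l, (A i l * A j k) * ((Y.updateRow i (Q k)).updateRow j (Q l)).det =
      - ∑ k, ∑ l, A i k * A j l * ((Y.updateRow i (Q k)).updateRow j (Q l)).det := by
    rw [Finset.sum_comm, ← Finset.sum_neg_distrib]
    refine Finset.sum_congr rfl fun k _ => ?_
    rw [← Finset.sum_neg_distrib]
    refine Finset.sum_congr rfl fun l _ => ?_
    rw [hanti l k]; ring
  have e4 : ∑ k, ∑ l, (A i k * A j l - A i l * A j k) *
      ((1 / 2 : ℝ) * ((Y.updateRow i (Q k)).updateRow j (Q l)).det) =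
      (1 / 2) * (∑ k, ∑ l, A i k * A j l * ((Y.updateRow i (Q k)).updateRow j (Q l)).det) -
      (1 / 2) * (∑ k, ∑ l, (A i l * A j k) * ((Y.updateRow i (Q k)).updateRow j (Q l)).det) := by
    simp only [Finset.mul_sum, ← Finset.sum_sub_distrib]
    refine Finset.sum_congr rfl fun k _ => Finset.sum_congr rfl fun l _ => by ring
  rw [e4, e3]; ring

/-- the quadratic part is the pairing of `lam A` with `dens P` -/
lemma quad_eq (A P : Mat) :
    ∑ k : Fin 5, wt k * (((k : ℝ) + 1) • (A * (1 - P)) + P).det = inner ℝ (lam A) (dens P) := by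
  rw [quad_extract, sum_pairs]
  rw [PiLp.inner_apply]
  simp only [Fintype.sum_prod_type]
  refine Finset.sum_congr rfl fun i _ => Finset.sum_congr rfl fun j _ => ?_
  by_cases hij : i < j
  · rw [if_pos hij, piecewise_pair _ _ hij.ne, det_two_rows A (1 - P) P hij.ne]
    refine Finset.sum_congr rfl fun k _ => Finset.sum_congr rfl fun l _ => ?_
    simp [lam, dens, hij]
    ring
  · rw [if_neg hij]
    simp [lam, dens, hij]

end Pool.Agent.H821R4
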