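import Mathlib

/-! The representation of `SL(4,ℝ)` on algebraic curvature type tensors. -/

namespace Pool.Agent.H821R4.Rep

open Matrix
open scoped Kronecker

set_option maxHeartbeats 4000000

/-- real `4 × 4` matrices -/
abbrev Mat := Matrix (Fin 4) (Fin 4) ℝ

/-- index set of order four tensors -/
abbrev Ix := Fin 4 × Fin 4 × Fin 4 × Fin 4

/-- tensors of order four -/
abbrev T4 := EuclideanSpace ℝ Ix

/-- fourth tensor power of a matrix -/
noncomputable def kr (g : Mat) : Matrix Ix Ix ℝ := g ⊗ₖ (g ⊗ₖ (g ⊗ₖ g))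

lemma kr_mul (g h : Mat) : kr (g * h) = kr g * kr h := by
  unfold kr
  rw [Matrix.mul_kronecker_mul, Matrix.mul_kronecker_mul, Matrix.mul_kronecker_mul]

lemma kr_one : kr 1 = 1 := by
  unfold kr
  rw [Matrix.one_kronecker_one, Matrix.one_kronecker_one, Matrix.one_kronecker_one]

lemma kr_transpose (g : Mat) : (kr g)ᵀ = kr gᵀ := by
  ext ⟨i, j, k, l⟩ ⟨i', j', k', l'⟩
  simp [kr, Matrix.kroneckerMap_apply]

/-- the action on tensors -/
noncomputable def act (g : Mat) : T4 →ₗ[ℝ] T4 := Matrix.toEuclideanLin (kr g)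

lemma act_apply (g : Mat) (x : T4) (i j k l : Fin 4) :
    act g x (i, j, k, l) = ∑ i', ∑ j', ∑ k', ∑ l', g i i' * (g j j' * (g k k' * g l l')) *
      x (i', j', k', l') := by
  simp only [act, Matrix.toLpLin_apply, Matrix.mulVec, dotProduct, Fintype.sum_prod_type, kr,
    Matrix.kroneckerMap_apply]

lemma act_mul (g h : Mat) (x : T4) : act (g * h) x = act g (act h x) := by
  unfold act
  rw [kr_mul]
  ext i
  simp [Matrix.toLpLin_apply, Matrix.mulVec_mulVec]

lemma act_one (x : T4) : act 1 x = x := by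
  unfold act
  rw [kr_one]
  ext i
  simp [Matrix.toLpLin_apply]

lemma inner_act (g : Mat) (x y : T4) : inner ℝ (act g x) y = inner ℝ x (act gᵀ y) := by
  unfold act
  rw [← kr_transpose]
  simp only [EuclideanSpace.inner_eq_star_dotProduct, star_trivial]
  simp only [Matrix.toLpLin_apply]
  rw [Matrix.dotProduct_mulVec, Matrix.mulVec_transpose]

/-- second exterior power -/
noncomputable def lam (A : Mat) : T4 :=
  WithLp.toLp 2 (fun p => A p.1 p.2.2.1 * A p.2.1 p.2.2.2 - A p.1 p.2.2.2 * A p.2.1 p.2.2.1)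

lemma conj_apply (g A : Mat) (i k : Fin 4) :
    (g * A * gᵀ) i k = ∑ i', ∑ k', g i i' * A i' k' * g k k' := by
  simp only [Matrix.mul_apply, Matrix.transpose_apply, Finset.sum_mul]
  rw [Finset.sum_comm]

lemma act_lam (g A : Mat) : act g (lam A) = lam (g * A * gᵀ) := by
  ext ⟨i, j, k, l⟩
  rw [act_apply]
  simp only [lam, PiLp.toLp_apply, conj_apply]
  have h1 : ∀ i j k l : Fin 4, (∑ i', ∑ k', g i i' * A i' k' * g k k') *
      (∑ j', ∑ l', g j j' * A j' l' * g l l') =
      ∑ i', ∑ j', ∑ k', ∑ l', g i i' * (g j j' * (g k k' * g l l')) * (A i' k' * A j' l') := by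
    intro i j k l
    simp only [Finset.sum_mul_sum]
    refine Finset.sum_congr rfl fun i' _ => ?_
    refine Finset.sum_congr rfl fun j' _ => ?_
    refine Finset.sum_congr rfl fun k' _ => ?_
    refine Finset.sum_congr rfl fun l' _ => ?_
    ring
  rw [h1 i j k l, h1 i j l k]
  have h2 : ∑ i', ∑ j', ∑ k', ∑ l', g i i' * (g j j' * (g l k' * g k l')) * (A i' k' * A j' l') =
      ∑ i', ∑ j', ∑ k', ∑ l', g i i' * (g j j' * (g k k' * g l l')) * (A i' l' * A j' k') := by
    refine Finset.sum_congr rfl fun i' _ => ?_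
    refine Finset.sum_congr rfl fun j' _ => ?_
    rw [Finset.sum_comm]
    refine Finset.sum_congr rfl fun k' _ => ?_
    refine Finset.sum_congr rfl fun l' _ => ?_
    ring
  rw [h2]
  simp only [← Finset.sum_sub_distrib]
  refine Finset.sum_congr rfl fun i' _ => ?_
  refine Finset.sum_congr rfl fun j' _ => ?_
  refine Finset.sum_congr rfl fun k' _ => ?_
  refine Finset.sum_congr rfl fun l' _ => ?_
  ring

/-- the square of the bivector `a ∧ b` -/
noncomputable def sq (a b : Fin 4 → ℝ) : T4 :=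
  WithLp.toLp 2 (fun p => (a p.1 * b p.2.1 - a p.2.1 * b p.1) *
    (a p.2.2.1 * b p.2.2.2 - a p.2.2.2 * b p.2.2.1))

lemma sq_eq_lam (a b : Fin 4 → ℝ) : sq a b = lam (vecMulVec a a + vecMulVec b b) := by
  ext ⟨i, j, k, l⟩
  simp only [sq, lam, PiLp.toLp_apply, Matrix.add_apply, vecMulVec_apply]
  ring

lemma act_sq (g : Mat) (a b : Fin 4 → ℝ) : act g (sq a b) = sq (g *ᵥ a) (g *ᵥ b) := by
  rw [sq_eq_lam, sq_eq_lam, act_lam]
  congr 1
  rw [Matrix.mul_add, Matrix.add_mul]
  congr 1 <;>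
  · rw [Matrix.mul_vecMulVec, Matrix.vecMulVec_mul, Matrix.vecMul_transpose]

/-- the space spanned by squares of decomposable bivectors -/
noncomputable def W : Submodule ℝ T4 :=
  Submodule.span ℝ (Set.range fun p : (Fin 4 → ℝ) × (Fin 4 → ℝ) => sq p.1 p.2)

lemma sq_mem (a b : Fin 4 → ℝ) : sq a b ∈ W := Submodule.subset_span ⟨(a, b), rfl⟩

lemma act_mem (g : Mat) {x : T4} (hx : x ∈ W) : act g x ∈ W := by
  have : W ≤ W.comap (act g) := by
    refine Submodule.span_le.2 ?_
    rintro _ ⟨p, rfl⟩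
    simp only [SetLike.mem_coe, Submodule.mem_comap]
    rw [act_sq]
    exact sq_mem _ _
  exact this hx

/-- Pluecker coordinate -/
def pl (a b : Fin 4 → ℝ) : ℝ := a 2 * b 3 - a 3 * b 2

/-- basis vectors -/
noncomputable def e2 : Fin 4 → ℝ := Pi.single 2 1

/-- basis vectors -/
noncomputable def e3 : Fin 4 → ℝ := Pi.single 3 1

/-- upper unitriangular matrix sending `e2, e3` to `e2 + α, e3 + β` -/
def upm (α0 α1 β0 β1 : ℝ) : Mat := !![1, 0, α0, β0; 0, 1, α1, β1; 0, 0, 1, 0; 0, 0, 0, 1]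

lemma sq_of_pl {a b : Fin 4 → ℝ} (h : pl a b ≠ 0) : ∃ α0 α1 β0 β1 : ℝ,
    sq a b = (pl a b) ^ 2 • act (upm α0 α1 β0 β1) (sq e2 e3) := by
  refine ⟨(b 3 * a 0 - a 3 * b 0) / pl a b, (b 3 * a 1 - a 3 * b 1) / pl a b,
    (- b 2 * a 0 + a 2 * b 0) / pl a b, (- b 2 * a 1 + a 2 * b 1) / pl a b, ?_⟩
  rw [act_sq]
  have h1 : upm ((b 3 * a 0 - a 3 * b 0) / pl a b) ((b 3 * a 1 - a 3 * b 1) / pl a b)
    ((- b 2 * a 0 + a 2 * b 0) / pl a b) ((- b 2 * a 1 + a 2 * b 1) / pl a b) *ᵥ e2 =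
    (fun i => (b 3 * a i - a 3 * b i) / pl a b) := by
    ext i
    fin_cases i <;> simp [upm, e2, Matrix.mulVec, dotProduct, Fin.sum_univ_four, Pi.single_apply]
    · rw [eq_div_iff h, one_mul]; unfold pl; ring
    · rw [show b 3 * a 3 - a 3 * b 3 = 0 by ring, zero_div]
  have h2 : upm ((b 3 * a 0 - a 3 * b 0) / pl a b) ((b 3 * a 1 - a 3 * b 1) / pl a b)
    ((- b 2 * a 0 + a 2 * b 0) / pl a b) ((- b 2 * a 1 + a 2 * b 1) / pl a b) *ᵥ e3 =
    (fun i => (- b 2 * a i + a 2 * b i) / pl a b) := by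
    ext i
    fin_cases i <;> simp [upm, e3, Matrix.mulVec, dotProduct, Fin.sum_univ_four, Pi.single_apply]
    · rw [show -(b 2 * a 2) + a 2 * b 2 = 0 by ring, zero_div]
    · rw [eq_div_iff h, one_mul]; unfold pl; ring
  rw [h1, h2]
  ext ⟨i, j, k, l⟩
  simp only [sq, PiLp.smul_apply, smul_eq_mul]
  field_simp
  unfold pl
  ring

lemma sq_cont : Continuous (fun p : (Fin 4 → ℝ) × (Fin 4 → ℝ) => sq p.1 p.2) := by
  unfold sq
  refine (PiLp.continuous_toLp 2 _).comp ?_
  refine continuous_pi fun p => ?_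
  fun_prop

/-- extension from the generic set -/
lemma generic_ext {x : T4} {c : ℝ}
    (h : ∀ a b, pl a b ≠ 0 → inner ℝ x (sq a b) = (pl a b) ^ 2 * c) (a b : Fin 4 → ℝ) :
    inner ℝ x (sq a b) = (pl a b) ^ 2 * c := by
  let A : ℝ → (Fin 4 → ℝ) := fun t => a + t • e2
  let B : ℝ → (Fin 4 → ℝ) := fun t => b + t • e3
  have hA : Continuous A := by fun_prop
  have hB : Continuous B := by fun_prop
  have hpl : ∀ t, pl (A t) (B t) = pl a b + t * (a 2 + b 3) + t ^ 2 := by
    intro t; simp [A, B, pl, e2, e3]; ring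
  have h1 : Continuous (fun t => inner ℝ x (sq (A t) (B t))) :=
    continuous_const.inner (sq_cont.comp (hA.prodMk hB))
  have h2 : Continuous (fun t => (pl (A t) (B t)) ^ 2 * c) := by
    simp only [hpl]; fun_prop
  by_cases h0 : pl a b = 0
  · have hev : (fun t => inner ℝ x (sq (A t) (B t))) =ᶠ[nhdsWithin 0 {0}ᶜ]
        (fun t => (pl (A t) (B t)) ^ 2 * c) := by
      have hev2 : ∀ᶠ t : ℝ in nhdsWithin 0 {0}ᶜ, pl (A t) (B t) ≠ 0 := by
        by_cases hc : a 2 + b 3 = 0
        · filter_upwards [self_mem_nhdsWithin] with t ht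
          rw [hpl, h0, hc]
          simpa using ht
        · have : ∀ᶠ t : ℝ in nhdsWithin 0 {0}ᶜ, (a 2 + b 3) + t ≠ 0 := by
            apply eventually_nhdsWithin_of_eventually_nhds
            have hcont : ContinuousAt (fun t : ℝ => (a 2 + b 3) + t) 0 := by fun_prop
            apply hcont.eventually_ne
            simpa using hc
          filter_upwards [self_mem_nhdsWithin, this] with t ht ht2
          rw [hpl, h0]
          have : (0:ℝ) + t * (a 2 + b 3) + t ^ 2 = t * ((a 2 + b 3) + t) := by ring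
          rw [this]
          exact mul_ne_zero ht ht2
      filter_upwards [hev2] with t ht
      exact h _ _ ht
    have e1 := (h1.tendsto 0).mono_left (nhdsWithin_le_nhds (s := {0}ᶜ))
    have e2' := (h2.tendsto 0).mono_left (nhdsWithin_le_nhds (s := {0}ᶜ))
    have := tendsto_nhds_unique_of_eventuallyEq e1 e2' hev
    simpa [A, B] using this
  · exact h a b h0

/-- matrices in `SL(4)` -/
abbrev SL4 := Matrix.SpecialLinearGroup (Fin 4) ℝ

/-- transpose in `SL(4)` -/
def tr (g : SL4) : SL4 := ⟨(g : Mat)ᵀ, by rw [Matrix.det_transpose]; exact g.2⟩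

lemma tr_inv_coe (g : SL4) : (((tr g)⁻¹ : SL4) : Mat) = ((g⁻¹ : SL4) : Mat)ᵀ := by
  rw [Matrix.SpecialLinearGroup.coe_inv, Matrix.SpecialLinearGroup.coe_inv]
  exact (Matrix.adjugate_transpose _).symm

/-- the representation on `W` (contragredient of the natural one) -/
noncomputable def rho : Representation ℝ SL4 W where
  toFun g := (act (((g⁻¹ : SL4) : Mat)ᵀ)).restrict (fun _ hx => act_mem _ hx)
  map_one' := by
    ext x
    simp [act_one]
  map_mul' g h := by
    ext x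
    simp only [LinearMap.restrict_apply, Module.End.mul_apply]
    rw [_root_.mul_inv_rev, Matrix.SpecialLinearGroup.coe_mul, Matrix.transpose_mul, act_mul]

lemma rho_coe (g : SL4) (x : W) : ((rho g x : W) : T4) = act (((g⁻¹ : SL4) : Mat)ᵀ) x := rfl

lemma rho_adj (g : SL4) (x y : W) : inner ℝ (rho g x) y = inner ℝ x (rho (tr g) y) := by
  rw [Submodule.coe_inner, Submodule.coe_inner, rho_coe, rho_coe, inner_act]
  congr 2
  congr 1
  rw [tr_inv_coe]

/-- the natural action, `nat g = rho (g⁻ᵀ)` -/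
lemma rho_inv_tr (g : SL4) (x : W) : ((rho (tr g)⁻¹ x : W) : T4) = act (g : Mat) x := by
  rw [rho_coe, inv_inv]
  simp [tr]

/-- the special vector -/
noncomputable def v0 : W := ⟨sq e2 e3, sq_mem _ _⟩

/-- `upm` in `SL(4)` -/
noncomputable def upS (α0 α1 β0 β1 : ℝ) : SL4 := ⟨upm α0 α1 β0 β1, by
  simp [upm, Matrix.det_succ_row_zero, Fin.sum_univ_succ]⟩

lemma perp_W {x : W} (h : ∀ a b, inner ℝ (x : T4) (sq a b) = 0) : x = 0 := by
  have h2 : ∀ y ∈ W, inner ℝ (x : T4) y = 0 := by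
    intro y hy
    induction hy using Submodule.span_induction with
    | mem y hy => obtain ⟨p, rfl⟩ := hy; exact h _ _
    | zero => simp
    | add y z _ _ hy hz => rw [inner_add_right, hy, hz, add_zero]
    | smul c y _ hy => rw [inner_smul_right, hy, mul_zero]
  have h3 := h2 x x.2
  rw [inner_self_eq_zero] at h3
  exact Subtype.ext h3

/-- vectors orthogonal to the orbit of `v0` vanish -/
lemma perp_orbit {x : W} (h : ∀ g : SL4, inner ℝ x (rho g v0) = 0) : x = 0 := by
  apply perp_W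
  intro a b
  have := generic_ext (x := (x : T4)) (c := 0) (fun a b hab => ?_) a b
  · rw [this]; ring
  · obtain ⟨α0, α1, β0, β1, hs⟩ := sq_of_pl hab
    rw [hs, inner_smul_right]
    have h1 := h (tr (upS α0 α1 β0 β1))⁻¹
    rw [Submodule.coe_inner, rho_inv_tr] at h1
    have h2 : act (upm α0 α1 β0 β1) (sq e2 e3) = act ((upS α0 α1 β0 β1 : SL4) : Mat) (v0 : T4) := rfl
    rw [h2, h1]

lemma rho_of_act {g : SL4} {c d : ℝ} (h : act ((g : Mat)ᵀ) (v0 : T4) = c • (v0 : T4))
    (hcd : c * d = 1) : rho g v0 = d • v0 := by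
  have h1 : rho g⁻¹ v0 = c • v0 := by
    apply Subtype.ext
    rw [rho_coe, inv_inv, h]; rfl
  have h2 : rho g (rho g⁻¹ v0) = v0 := by
    rw [← Module.End.mul_apply, ← map_mul, mul_inv_cancel, map_one]; rfl
  rw [h1, map_smul] at h2
  calc rho g v0 = (c * d) • rho g v0 := by rw [hcd, one_smul]
    _ = d • (c • rho g v0) := by rw [smul_smul, mul_comm]
    _ = d • v0 := by rw [h2]

lemma v0_fixed {u : SL4} (h1 : ∀ i j, j < i → (u : Mat) i j = 0) (h2 : ∀ i, (u : Mat) i i = 1) :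
    rho u v0 = v0 := by
  have h : act ((u : Mat)ᵀ) (v0 : T4) = (1:ℝ) • (v0 : T4) := by
    show act ((u : Mat)ᵀ) (sq e2 e3) = (1:ℝ) • sq e2 e3
    rw [act_sq, one_smul]
    have a2 : (u : Mat)ᵀ *ᵥ e2 = ![0, 0, 1, (u : Mat) 2 3] := by
      ext i
      fin_cases i <;> simp [e2, h2 2, h1 2 0 (by decide), h1 2 1 (by decide)]
    have a3 : (u : Mat)ᵀ *ᵥ e3 = ![0, 0, 0, 1] := by
      ext i
      fin_cases i <;> simp [e3, h2 3, h1 3 0 (by decide), h1 3 1 (by decide), h1 3 2 (by decide)]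
    rw [a2, a3]
    ext ⟨i, j, k, l⟩
    fin_cases i <;> fin_cases j <;> fin_cases k <;> fin_cases l <;> simp [sq, e2, e3]
  rw [rho_of_act h (one_mul 1), one_smul]

lemma v0_torus {t : SL4} (h1 : ∀ i j, i ≠ j → (t : Mat) i j = 0) :
    rho t v0 = (((t : Mat) 0 0) ^ 2 * ((t : Mat) 1 1) ^ 2) • v0 := by
  have hdet : (t : Mat) 0 0 * (t : Mat) 1 1 * (t : Mat) 2 2 * (t : Mat) 3 3 = 1 := by
    have hd := t.2
    have hdiag : (t : Mat) = Matrix.diagonal (fun i => (t : Mat) i i) := by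
      ext i j
      by_cases hij : i = j
      · subst hij; simp
      · rw [h1 i j hij, Matrix.diagonal_apply_ne _ hij]
    have : (t : Mat).det = ∏ i, (t : Mat) i i := by
      conv_lhs => rw [hdiag]
      rw [Matrix.det_diagonal]
    rw [this, Fin.prod_univ_four] at hd
    exact hd
  have h : act ((t : Mat)ᵀ) (v0 : T4) = (((t : Mat) 2 2 * (t : Mat) 3 3) ^ 2) • (v0 : T4) := by
    show act ((t : Mat)ᵀ) (sq e2 e3) = _ • sq e2 e3
    rw [act_sq]
    have a2 : (t : Mat)ᵀ *ᵥ e2 = (t : Mat) 2 2 • e2 := by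
      ext i
      fin_cases i <;> simp [e2, h1 2 0 (by decide), h1 2 1 (by decide), h1 2 3 (by decide)]
    have a3 : (t : Mat)ᵀ *ᵥ e3 = (t : Mat) 3 3 • e3 := by
      ext i
      fin_cases i <;> simp [e3, h1 3 0 (by decide), h1 3 1 (by decide), h1 3 2 (by decide)]
    rw [a2, a3]
    ext ⟨i, j, k, l⟩
    simp only [sq, Pi.smul_apply, PiLp.smul_apply, smul_eq_mul]
    ring
  apply rho_of_act h
  calc _ = ((t : Mat) 0 0 * (t : Mat) 1 1 * (t : Mat) 2 2 * (t : Mat) 3 3) ^ 2 := by ring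
    _ = 1 := by rw [hdet]; ring

lemma v0_inner_ne : inner ℝ (v0 : T4) (v0 : T4) ≠ 0 := by
  intro h
  rw [inner_self_eq_zero] at h
  have : (v0 : T4) (2, 3, 2, 3) = 0 := by rw [h]; rfl
  revert this
  show (sq e2 e3) (2, 3, 2, 3) = 0 → False
  simp [sq, e2, e3]

/-- vectors fixed by the upper unitriangular group are multiples of `v0` -/
lemma fixed_unique {x : W} (h : ∀ u : SL4, (∀ i j, j < i → (u : Mat) i j = 0) →
    (∀ i, (u : Mat) i i = 1) → rho u x = x) : ∃ c : ℝ, x = c • v0 := by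
  have key : ∀ y : W, (∀ u : SL4, (∀ i j, j < i → (u : Mat) i j = 0) →
    (∀ i, (u : Mat) i i = 1) → rho u y = y) → ∀ a b,
      inner ℝ (y : T4) (sq a b) = (pl a b) ^ 2 * inner ℝ (y : T4) (v0 : T4) := by
    intro y hy
    apply generic_ext
    intro a b hab
    obtain ⟨α0, α1, β0, β1, hs⟩ := sq_of_pl hab
    rw [hs, inner_smul_right]
    congr 1
    have h1 : act (upm α0 α1 β0 β1) (sq e2 e3) = act ((upS α0 α1 β0 β1 : SL4) : Mat) (v0 : T4) := rfl
    rw [h1, ← rho_inv_tr, ← Submodule.coe_inner, ← Submodule.coe_inner, real_inner_comm, rho_adj,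
      real_inner_comm]
    congr 1
    have h2 : rho (upS α0 α1 β0 β1) y = y := by
      apply hy
      · intro i j hij
        fin_cases i <;> fin_cases j <;> first | (exfalso; revert hij; decide) | simp [upS, upm]
      · intro i; fin_cases i <;> simp [upS, upm]
    have h3 : tr (tr (upS α0 α1 β0 β1))⁻¹ = (upS α0 α1 β0 β1)⁻¹ := by
      apply Subtype.ext
      show (((tr (upS α0 α1 β0 β1))⁻¹ : SL4) : Mat)ᵀ = _
      rw [tr_inv_coe, Matrix.transpose_transpose]
    rw [h3]
    have h4 : rho (upS α0 α1 β0 β1)⁻¹ (rho (upS α0 α1 β0 β1) y) = y := by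
      rw [← Module.End.mul_apply, ← map_mul, inv_mul_cancel, map_one]; rfl
    rw [h2] at h4
    exact h4
  have hv : ∀ u : SL4, (∀ i j, j < i → (u : Mat) i j = 0) →
    (∀ i, (u : Mat) i i = 1) → rho u v0 = v0 := fun u h1 h2 => v0_fixed h1 h2
  refine ⟨inner ℝ (x : T4) (v0 : T4) / inner ℝ (v0 : T4) (v0 : T4), ?_⟩
  rw [← sub_eq_zero]
  apply perp_W
  intro a b
  rw [Submodule.coe_sub, Submodule.coe_smul, inner_sub_left, inner_smul_left, key x h, key v0 hv]
  have := v0_inner_ne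
  simp only [conj_trivial]
  field_simp
  ring

/-- `rho` is irreducible -/
lemma rho_irred : Nontrivial W ∧ ∀ U : Submodule ℝ W, (∀ g, ∀ u ∈ U, rho g u ∈ U) →
    U = ⊥ ∨ U = ⊤ := by
  refine ⟨⟨v0, 0, fun h => v0_inner_ne (by rw [h]; simp)⟩, fun U hU => ?_⟩
  have hUp : ∀ g, ∀ u ∈ Uᗮ, rho g u ∈ Uᗮ := by
    intro g u hu
    rw [Submodule.mem_orthogonal] at hu ⊢
    intro y hy
    have h1 := hu _ (hU (tr g) y hy)
    rw [rho_adj] at h1
    have h2 : tr (tr g) = g := by
      apply Subtype.ext; simp [tr]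
    rwa [h2] at h1
  have hdec : ∀ u : SL4, (∀ i j, j < i → (u : Mat) i j = 0) → (∀ i, (u : Mat) i i = 1) →
      rho u (U.starProjection v0) = U.starProjection v0 := by
    intro u h1 h2
    have hf := v0_fixed h1 h2
    have hd : v0 - U.starProjection v0 ∈ Uᗮ := Submodule.sub_starProjection_mem_orthogonal v0
    have hm : U.starProjection v0 ∈ U := Submodule.starProjection_apply_mem U v0
    symm
    apply Submodule.eq_starProjection_of_mem_of_inner_eq_zero
    · exact hU _ _ hm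
    · intro w hw
      have h3 : v0 - rho u (U.starProjection v0) = rho u (v0 - U.starProjection v0) := by
        rw [map_sub, hf]
      rw [h3]
      exact (Submodule.mem_orthogonal' _ _).1 (hUp u _ hd) w hw
  obtain ⟨c, hc⟩ := fixed_unique hdec
  by_cases h0 : c = 0
  · left
    rw [h0, zero_smul] at hc
    have hv : v0 ∈ Uᗮ := (Submodule.starProjection_apply_eq_zero_iff U).1 hc
    rw [eq_bot_iff]
    intro x hx
    rw [Submodule.mem_bot]
    apply perp_orbit
    intro g
    exact (Submodule.mem_orthogonal _ _).1 (hUp g _ hv) x hx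
  · right
    have hv : v0 ∈ U := by
      have : v0 = c⁻¹ • U.starProjection v0 := by
        rw [hc, smul_smul, inv_mul_cancel₀ h0, one_smul]
      rw [this]
      exact U.smul_mem _ (Submodule.starProjection_apply_mem U v0)
    have : Uᗮ = ⊥ := by
      rw [eq_bot_iff]
      intro x hx
      rw [Submodule.mem_bot]
      apply perp_orbit
      intro g
      exact (Submodule.mem_orthogonal' _ _).1 hx _ (hU g _ hv)
    exact (Submodule.orthogonal_eq_bot_iff).1 this

end Pool.Agent.H821R4.Rep
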