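import Mathlib
import Pool.Agent.H821R4.Defs
import Pool.Agent.H821R4.Rep

/-! `rho` is rational, has highest weight `(2,2,0,0)`, and is not admissible. -/

namespace Pool.Agent.H821R4.Rep

open Matrix Pool.Agent.H821R4.Stmt

set_option maxHeartbeats 4000000

/-- polynomial functions on `SL(4)` -/
def IsPoly (f : SL4 → ℝ) : Prop := ∃ p : MvPolynomial (Fin 4 × Fin 4) ℝ, ∀ g : SL4,
  f g = MvPolynomial.eval (fun ij => (g : Mat) ij.1 ij.2) p

lemma IsPoly.const (c : ℝ) : IsPoly (fun _ => c) := ⟨MvPolynomial.C c, fun g => by simp⟩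

lemma IsPoly.add {f g : SL4 → ℝ} (hf : IsPoly f) (hg : IsPoly g) : IsPoly (fun x => f x + g x) := by
  obtain ⟨p, hp⟩ := hf; obtain ⟨q, hq⟩ := hg
  exact ⟨p + q, fun x => by rw [map_add, ← hp, ← hq]⟩

lemma IsPoly.mul {f g : SL4 → ℝ} (hf : IsPoly f) (hg : IsPoly g) : IsPoly (fun x => f x * g x) := by
  obtain ⟨p, hp⟩ := hf; obtain ⟨q, hq⟩ := hg
  exact ⟨p * q, fun x => by rw [map_mul, ← hp, ← hq]⟩

lemma IsPoly.sum {ι : Type*} (s : Finset ι) {f : ι → SL4 → ℝ} (hf : ∀ i ∈ s, IsPoly (f i)) :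
    IsPoly (fun x => ∑ i ∈ s, f i x) := by
  classical
  induction s using Finset.induction_on with
  | empty => simpa using IsPoly.const 0
  | insert a s ha ih =>
    simp only [Finset.sum_insert ha]
    exact (hf a (by simp)).add (ih fun i hi => hf i (by simp [hi]))

lemma IsPoly.prod {ι : Type*} (s : Finset ι) {f : ι → SL4 → ℝ} (hf : ∀ i ∈ s, IsPoly (f i)) :
    IsPoly (fun x => ∏ i ∈ s, f i x) := by
  classical
  induction s using Finset.induction_on with
  | empty => simpa using IsPoly.const 1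
  | insert a s ha ih =>
    simp only [Finset.prod_insert ha]
    exact (hf a (by simp)).mul (ih fun i hi => hf i (by simp [hi]))

lemma IsPoly.entry (i j : Fin 4) : IsPoly (fun g => (g : Mat) i j) :=
  ⟨MvPolynomial.X (i, j), fun g => by simp⟩

lemma IsPoly.det {M : SL4 → Mat} (h : ∀ i j, IsPoly (fun g => M g i j)) :
    IsPoly (fun g => (M g).det) := by
  simp only [Matrix.det_apply']
  refine IsPoly.sum _ fun σ _ => ?_
  exact (IsPoly.const _).mul (IsPoly.prod _ fun i _ => h _ _)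

lemma IsPoly.inv_entry (i j : Fin 4) : IsPoly (fun g => ((g⁻¹ : SL4) : Mat) i j) := by
  simp only [Matrix.SpecialLinearGroup.coe_inv, Matrix.adjugate_apply]
  refine IsPoly.det fun a b => ?_
  by_cases ha : a = j
  · subst ha
    simp only [Matrix.updateRow_self]
    exact IsPoly.const _
  · simp only [Matrix.updateRow_ne ha]
    exact IsPoly.entry a b

lemma rho_rational : IsRational rho := by
  intro φ w
  let v : W := (InnerProductSpace.toDual ℝ W).symm (LinearMap.toContinuousLinearMap φ)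
  have hv : ∀ x : W, φ x = inner ℝ v x := by
    intro x
    rw [InnerProductSpace.toDual_symm_apply]
    rfl
  have : IsPoly (fun g => φ (rho g w)) := by
    simp only [hv, Submodule.coe_inner, rho_coe]
    simp only [PiLp.inner_apply, Fintype.sum_prod_type, act_apply]
    refine IsPoly.sum _ fun i _ => IsPoly.sum _ fun j _ => IsPoly.sum _ fun k _ =>
      IsPoly.sum _ fun l _ => ?_
    have h2 : IsPoly (fun g : SL4 => (∑ i', ∑ j', ∑ k', ∑ l', (((g⁻¹ : SL4) : Mat)ᵀ i i' *
      ((((g⁻¹ : SL4) : Mat)ᵀ) j j' * ((((g⁻¹ : SL4) : Mat)ᵀ) k k' * (((g⁻¹ : SL4) : Mat)ᵀ) l l'))) *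
      (w : T4) (i', j', k', l')) * (v : T4) (i, j, k, l)) := by
      refine IsPoly.mul ?_ (IsPoly.const _)
      refine IsPoly.sum _ fun i' _ => IsPoly.sum _ fun j' _ => IsPoly.sum _ fun k' _ =>
        IsPoly.sum _ fun l' _ => ?_
      refine IsPoly.mul ?_ (IsPoly.const _)
      simp only [Matrix.transpose_apply]
      exact (IsPoly.inv_entry _ _).mul ((IsPoly.inv_entry _ _).mul
        ((IsPoly.inv_entry _ _).mul (IsPoly.inv_entry _ _)))
    exact h2
  obtain ⟨p, hp⟩ := this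
  exact ⟨p, hp⟩

lemma rho_isIrred : IsIrred rho := rho_irred

lemma rho_highest : HasHighestWeight rho ![2, 2, 0, 0] := by
  refine ⟨v0, fun h => v0_inner_ne (by rw [h]; simp), fun u h1 h2 => v0_fixed h1 h2, fun t h => ?_⟩
  rw [v0_torus h]
  simp [Fin.prod_univ_four]

lemma rho_not_admissible : ¬ IsAdmissible rho := by
  rintro ⟨p, q, w, hw, hu, ht⟩
  obtain ⟨c, rfl⟩ := fixed_unique hu
  have hc : c ≠ 0 := by rintro rfl; simp at hw
  have hv : v0 ≠ 0 := by rintro h; simp [h] at hw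
  have key : ∀ t : SL4, (∀ i j, i ≠ j → (t : Mat) i j = 0) →
      ((t : Mat) 0 0) ^ 2 * ((t : Mat) 1 1) ^ 2 =
      ((t : Mat) 0 0) ^ ((p : ℤ) + q) * ((t : Mat) 1 1) ^ (q : ℤ) * ((t : Mat) 2 2) ^ (q : ℤ) := by
    intro t h
    have h1 := ht t h
    rw [map_smul, v0_torus h, smul_comm] at h1
    have h2 := smul_right_injective W hc
    have h3 : ((((t : Mat) 0 0) ^ 2 * ((t : Mat) 1 1) ^ 2) - ∏ i : Fin 4, (t : Mat) i i ^
      ((fun i : Fin 4 => if i.val = 0 then (p : ℤ) + q else if i.val + 1 = 4 then 0 else (q : ℤ)) i))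
      • (c • v0) = 0 := by
      rw [sub_smul, ← h1, smul_comm, sub_self]
    rcases smul_eq_zero.1 h3 with h4 | h4
    · rw [sub_eq_zero] at h4
      rw [h4, Fin.prod_univ_four]
      simp
    · exact absurd h4 (smul_ne_zero hc hv)
  let t1 : SL4 := ⟨Matrix.diagonal ![1, 2, 1, 1/2], by
    rw [Matrix.det_diagonal]; simp [Fin.prod_univ_four]⟩
  let t2 : SL4 := ⟨Matrix.diagonal ![1, 1, 2, 1/2], by
    rw [Matrix.det_diagonal]; simp [Fin.prod_univ_four]⟩
  have k1 := key t1 (fun i j hij => Matrix.diagonal_apply_ne _ hij)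
  have k2 := key t2 (fun i j hij => Matrix.diagonal_apply_ne _ hij)
  simp [t1] at k1
  simp [t2] at k2
  rw [← k1] at k2
  norm_num at k2

end Pool.Agent.H821R4.Rep
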