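import Mathlib
import Pool.Agent.H821R4.Quad
import Pool.Agent.H821R4.Rep2

/-! The tensor valued functional and its properties. -/

namespace Pool.Agent.H821R4

open Set Metric MeasureTheory Filter Topology Matrix

set_option maxHeartbeats 4000000

/-- operator of a matrix -/
noncomputable abbrev op (B : Mat) : E4 →L[ℝ] E4 := toEuclideanCLM (n := Fin 4) (𝕜 := ℝ) B

lemma op_mul (A B : Mat) : op (A * B) = (op A).comp (op B) := map_mul _ _ _

lemma op_one : op 1 = ContinuousLinearMap.id ℝ E4 := map_one _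

lemma op_mat (P : E4 →L[ℝ] E4) : op (mat P) = P := StarAlgEquiv.apply_symm_apply _ _

lemma op_det (B : Mat) : (op B).det = B.det := by
  have : (op B : E4 →ₗ[ℝ] E4) = Matrix.toEuclideanLin B := rfl
  show LinearMap.det (op B : E4 →ₗ[ℝ] E4) = _
  rw [this, Matrix.toEuclideanLin_eq_toLin, LinearMap.det_toLin]

/-- the equivalence given by an invertible matrix -/
noncomputable def eqv (B : Mat) (hB : B.det ≠ 0) : E4 ≃L[ℝ] E4 :=
  ContinuousLinearEquiv.equivOfInverse (op B) (op B⁻¹)
    (fun x => by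
      have : (op B⁻¹).comp (op B) = ContinuousLinearMap.id ℝ E4 := by
        rw [← op_mul, Matrix.nonsing_inv_mul _ (isUnit_iff_ne_zero.2 hB), op_one]
      exact congrArg (fun f => f x) this)
    (fun x => by
      have : (op B).comp (op B⁻¹) = ContinuousLinearMap.id ℝ E4 := by
        rw [← op_mul, Matrix.mul_nonsing_inv _ (isUnit_iff_ne_zero.2 hB), op_one]
      exact congrArg (fun f => f x) this)

/-- scaled local volume -/
noncomputable def zf (B : Mat) (K : Set E4) : ℝ := |B.det| * zeta (op B⁻¹ '' K)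

lemma zf_eq {K : Set E4} (h : IsB K) {B : Mat} (hB : B.det ≠ 0) :
    zf B K = ∫ z, (B * Bᵀ * (1 - mat (fderiv ℝ (proj K) z)) + mat (fderiv ℝ (proj K) z)).det
      * intg K z := by
  have h1 := cov h (eqv B hB)
  have e1 : ((eqv B hB : E4 ≃L[ℝ] E4) : E4 →L[ℝ] E4) = op B := rfl
  have e2 : ((eqv B hB).symm : E4 → E4) = op B⁻¹ := rfl
  rw [e1, e2, op_det] at h1
  unfold zf
  rw [h1]
  congr 1
  ext z
  congr 1
  set P := fderiv ℝ (proj K) z
  have e3 : Mop ((op B).comp (ContinuousLinearMap.adjoint (op B))) P =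
      op (B * Bᵀ * (1 - mat P) + mat P) := by
    have e4 : ContinuousLinearMap.adjoint (op B) = op Bᵀ := by
      rw [← ContinuousLinearMap.star_eq_adjoint]
      have : star (op B) = op (star B) := (map_star _ _).symm
      rw [this, Matrix.star_eq_conjTranspose, Matrix.conjTranspose_eq_transpose_of_trivial]
    rw [e4]
    unfold Mop
    have e5 : op (B * Bᵀ * (1 - mat P) + mat P) = (op B).comp (op Bᵀ) * (1 - op (mat P)) +
        op (mat P) := by
      simp only [map_add, map_mul, map_sub, map_one]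
      rfl
    rw [e5, op_mat]
    rfl
  rw [e3, op_det]

/-- the tensor valued functional -/
noncomputable def SK (K : Set E4) : T4 := ∫ z, intg K z • dens (mat (fderiv ℝ (proj K) z))

/-- the quadratic part of `zf` -/
noncomputable def zq (B : Mat) (K : Set E4) : ℝ :=
  ∑ k : Fin 5, wt k * zf (Real.sqrt ((k : ℝ) + 1) • B) K

lemma zq_eq {K : Set E4} (h : IsB K) {B : Mat} (hB : B.det ≠ 0) :
    zq B K = inner ℝ (lam (B * Bᵀ)) (SK K) := by
  unfold zq SK
  have hint : Integrable (fun z => intg K z • dens (mat (fderiv ℝ (proj K) z))) :=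
    integrable_comp h (G := fun P => dens (mat P)) (dens_cont.comp mat_cont)
  rw [← integral_inner hint]
  have hdet : ∀ k : Fin 5, (Real.sqrt ((k : ℝ) + 1) • B).det ≠ 0 := by
    intro k
    rw [Matrix.det_smul]
    exact mul_ne_zero (pow_ne_zero _ (Real.sqrt_ne_zero'.2 (by positivity))) hB
  have hz : ∀ k : Fin 5, zf (Real.sqrt ((k : ℝ) + 1) • B) K = ∫ z, intg K z •
      ((((k : ℝ) + 1) • (B * Bᵀ * (1 - mat (fderiv ℝ (proj K) z)))) +
        mat (fderiv ℝ (proj K) z)).det := by
    intro k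
    rw [zf_eq h (hdet k)]
    congr 1
    ext z
    rw [smul_eq_mul, mul_comm]
    congr 3
    rw [Matrix.transpose_smul, Matrix.smul_mul, Matrix.mul_smul, smul_smul,
      Real.mul_self_sqrt (by positivity), Matrix.smul_mul]
  simp only [hz]
  simp only [← integral_const_mul]
  rw [← integral_finsetSum]
  · congr 1
    ext z
    rw [inner_smul_right, ← quad_eq, Finset.mul_sum]
    refine Finset.sum_congr rfl fun k _ => ?_
    rw [smul_eq_mul]; ring
  · intro k _
    apply Integrable.const_mul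
    refine integrable_comp h (G := fun P => ((((k : ℝ) + 1) • (B * Bᵀ * (1 - mat P))) +
        mat P).det) ?_
    apply Continuous.matrix_det
    have c1 : Continuous (fun P : E4 →L[ℝ] E4 => (1 : Mat) - mat P) :=
      continuous_const.sub mat_cont
    have c2 : Continuous (fun P : E4 →L[ℝ] E4 => B * Bᵀ * (1 - mat P)) :=
      Continuous.matrix_mul continuous_const c1
    have c3 : Continuous (fun P : E4 →L[ℝ] E4 => ((k : ℝ) + 1) • (B * Bᵀ * (1 - mat P))) :=
      (continuous_const_smul ((k : ℝ) + 1)).comp c2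
    exact c3.add mat_cont

lemma op_inj {B : Mat} (hB : B.det ≠ 0) : Function.Injective (op B) := (eqv B hB).injective

lemma inv_det_ne {B : Mat} (hB : B.det ≠ 0) : (B⁻¹).det ≠ 0 := by
  intro h
  have := Matrix.det_nonsing_inv_mul_det B (isUnit_iff_ne_zero.2 hB)
  rw [h, zero_mul] at this
  exact zero_ne_one this

lemma IsB.op_image {K : Set E4} (h : IsB K) {B : Mat} (hB : B.det ≠ 0) : IsB (op B '' K) :=
  h.image (eqv B hB)

lemma zf_val {K L : Set E4} (hK : IsB K) (hL : IsB L) (hU : IsB (K ∪ L)) {B : Mat}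
    (hB : B.det ≠ 0) : zf B (K ∪ L) + zf B (K ∩ L) = zf B K + zf B L := by
  unfold zf
  have hi := inv_det_ne hB
  have hU' : IsB (op B⁻¹ '' K ∪ op B⁻¹ '' L) := by
    rw [← image_union]; exact hU.op_image hi
  have h := zeta_val (hK.op_image hi) (hL.op_image hi) hU'
  rw [image_union, image_inter (op_inj hi), ← mul_add, ← mul_add, h]

lemma zf_tendsto {K : ℕ → Set E4} {L : Set E4} {δ : ℕ → ℝ} (hK : ∀ j, IsB (K j)) (hL : IsB L)
    (hc : ∀ j, Close (δ j) (K j) L) (hδ : Tendsto δ atTop (𝓝 0)) {B : Mat} (hB : B.det ≠ 0) :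
    Tendsto (fun j => zf B (K j)) atTop (𝓝 (zf B L)) := by
  unfold zf
  have hi := inv_det_ne hB
  refine Tendsto.const_mul _ (zeta_tendsto (fun j => (hK j).op_image hi) (hL.op_image hi)
    (fun j => (hc j).image (op B⁻¹)) ?_)
  have := hδ.const_mul (‖op B⁻¹‖)
  simpa using this

lemma zq_val {K L : Set E4} (hK : IsB K) (hL : IsB L) (hU : IsB (K ∪ L)) {B : Mat}
    (hB : B.det ≠ 0) : zq B (K ∪ L) + zq B (K ∩ L) = zq B K + zq B L := by
  unfold zq
  rw [← Finset.sum_add_distrib, ← Finset.sum_add_distrib]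
  refine Finset.sum_congr rfl fun k _ => ?_
  rw [← mul_add, ← mul_add, zf_val hK hL hU]
  rw [Matrix.det_smul]
  exact mul_ne_zero (pow_ne_zero _ (Real.sqrt_ne_zero'.2 (by positivity))) hB

lemma zq_tendsto {K : ℕ → Set E4} {L : Set E4} {δ : ℕ → ℝ} (hK : ∀ j, IsB (K j)) (hL : IsB L)
    (hc : ∀ j, Close (δ j) (K j) L) (hδ : Tendsto δ atTop (𝓝 0)) {B : Mat} (hB : B.det ≠ 0) :
    Tendsto (fun j => zq B (K j)) atTop (𝓝 (zq B L)) := by
  unfold zq
  refine tendsto_finsetSum _ fun k _ => ?_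
  refine Tendsto.const_mul _ (zf_tendsto hK hL hc hδ ?_)
  rw [Matrix.det_smul]
  exact mul_ne_zero (pow_ne_zero _ (Real.sqrt_ne_zero'.2 (by positivity))) hB

/-- equivariance of `zf` -/
lemma zf_equi (K : Set E4) {B g : Mat} (hB : B.det ≠ 0) (hg : g.det = 1) :
    zf (g⁻¹ * B) K = zf B (op g '' K) := by
  unfold zf
  have hgu : IsUnit g.det := by rw [hg]; exact isUnit_one
  have h1 : (g⁻¹ * B).det = B.det := by
    rw [Matrix.det_mul, Matrix.det_nonsing_inv, hg]; simp
  have h2 : (g⁻¹ * B)⁻¹ = B⁻¹ * g := by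
    rw [Matrix.mul_inv_rev, Matrix.nonsing_inv_nonsing_inv _ hgu]
  rw [h1, h2, op_mul, ← image_comp]
  rfl

lemma zq_equi (K : Set E4) {B g : Mat} (hB : B.det ≠ 0) (hg : g.det = 1) :
    zq (g⁻¹ * B) K = zq B (op g '' K) := by
  unfold zq
  refine Finset.sum_congr rfl fun k _ => ?_
  rw [← zf_equi K (B := Real.sqrt ((k : ℝ) + 1) • B) _ hg, Matrix.mul_smul]
  rw [Matrix.det_smul]
  exact mul_ne_zero (pow_ne_zero _ (Real.sqrt_ne_zero'.2 (by positivity))) hB

end Pool.Agent.H821R4
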