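import Mathlib
import Pool.Agent.H821R4.Func

/-! The Minkowski valuation. -/

namespace Pool.Agent.H821R4

open Set Metric MeasureTheory Filter Topology Matrix Pool.Agent.H821R4.Stmt

set_option maxHeartbeats 4000000

lemma lam_eq (A : Mat) : lam A = Rep.lam A := rfl

open scoped MatrixOrder in
lemma exists_sqrt {A : Mat} (hA : A.PosDef) : ∃ B : Mat, B.det ≠ 0 ∧ A = B * Bᵀ := by
  obtain ⟨X, hX⟩ := CStarAlgebra.nonneg_iff_eq_star_mul_self.mp hA.posSemidef.nonneg
  have hX' : A = Xᵀ * X := by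
    rw [hX, Matrix.star_eq_conjTranspose, Matrix.conjTranspose_eq_transpose_of_trivial]
  refine ⟨Xᵀ, ?_, by rw [Matrix.transpose_transpose]; exact hX'⟩
  intro h0
  have := hA.det_pos
  rw [hX', Matrix.det_mul, h0, zero_mul] at this
  exact lt_irrefl _ this

/-- the span of the tensors `lam (B Bᵀ)` -/
noncomputable def W' : Submodule ℝ T4 :=
  Submodule.span ℝ {x | ∃ B : Mat, B.det ≠ 0 ∧ x = lam (B * Bᵀ)}

lemma posDef_aux (a b : Fin 4 → ℝ) {ε : ℝ} (hε : 0 < ε) :
    (vecMulVec a a + vecMulVec b b + ε • (1 : Mat)).PosDef := by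
  refine Matrix.PosDef.posSemidef_add ?_ ?_
  · have h1 : (vecMulVec a a).PosSemidef := by
      simpa using Matrix.posSemidef_vecMulVec_self_star a
    have h2 : (vecMulVec b b).PosSemidef := by
      simpa using Matrix.posSemidef_vecMulVec_self_star b
    exact h1.add h2
  · exact Matrix.PosDef.one.smul hε

lemma sq_combo (a b : Fin 4 → ℝ) : Rep.sq a b =
    (3:ℝ) • lam (vecMulVec a a + vecMulVec b b + (1:ℝ) • (1 : Mat)) -
    (3:ℝ) • lam (vecMulVec a a + vecMulVec b b + (2:ℝ) • (1 : Mat)) +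
    lam (vecMulVec a a + vecMulVec b b + (3:ℝ) • (1 : Mat)) := by
  ext ⟨i, j, k, l⟩
  simp only [Rep.sq, lam, PiLp.add_apply, PiLp.sub_apply, PiLp.smul_apply, smul_eq_mul,
    Matrix.add_apply, Matrix.smul_apply, vecMulVec_apply]
  ring

lemma W_le : Rep.W ≤ W' := by
  refine Submodule.span_le.2 ?_
  rintro _ ⟨⟨a, b⟩, rfl⟩
  have h : ∀ ε : ℝ, 0 < ε → lam (vecMulVec a a + vecMulVec b b + ε • (1 : Mat)) ∈ W' := by
    intro ε hε
    obtain ⟨B, hB, hB2⟩ := exists_sqrt (posDef_aux a b hε)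
    exact Submodule.subset_span ⟨B, hB, by rw [hB2]⟩
  show Rep.sq a b ∈ W'
  rw [sq_combo]
  exact W'.add_mem (W'.sub_mem (W'.smul_mem _ (h 1 (by norm_num))) (W'.smul_mem _ (h 2 (by norm_num))))
    (h 3 (by norm_num))

/-- the vector valued functional with values in `W` -/
noncomputable def φ (K : Set E4) : Rep.W := Rep.W.orthogonalProjectionOnto (SK K)

lemma inner_φ (w : Rep.W) (K : Set E4) : inner ℝ w (φ K) = inner ℝ (w : T4) (SK K) := by
  unfold φ
  exact Submodule.inner_orthogonalProjectionOnto_eq_of_mem_left w _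

lemma val_aux {K L : Set E4} (hK : IsB K) (hL : IsB L) (hU : IsB (K ∪ L)) {w : T4}
    (hw : w ∈ W') : inner ℝ w (SK (K ∪ L)) + inner ℝ w (SK (K ∩ L)) =
    inner ℝ w (SK K) + inner ℝ w (SK L) := by
  have hI : IsB (K ∩ L) := ⟨hK.cpt.inter hL.cpt, hK.cvx.inter hL.cvx, by
    rw [interior_inter]; exact ⟨hK.zero, hL.zero⟩⟩
  induction hw using Submodule.span_induction with
  | mem y hy =>
    obtain ⟨B, hB, rfl⟩ := hy
    rw [← zq_eq hU hB, ← zq_eq hI hB, ← zq_eq hK hB, ← zq_eq hL hB, zq_val hK hL hU hB]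
  | zero => simp
  | add y z _ _ hy hz => simp only [inner_add_left]; linarith
  | smul c y _ hy => simp only [inner_smul_left, ← mul_add, hy]

lemma φ_val {K L : Set E4} (hK : IsB K) (hL : IsB L) (hU : IsB (K ∪ L)) :
    φ (K ∪ L) + φ (K ∩ L) = φ K + φ L := by
  apply ext_inner_left ℝ
  intro w
  rw [inner_add_right, inner_add_right, inner_φ, inner_φ, inner_φ, inner_φ]
  exact val_aux hK hL hU (W_le w.2)

lemma tendsto_aux {K : ℕ → Set E4} {L : Set E4} {δ : ℕ → ℝ} (hK : ∀ j, IsB (K j)) (hL : IsB L)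
    (hc : ∀ j, Close (δ j) (K j) L) (hδ : Tendsto δ atTop (𝓝 0)) {w : T4} (hw : w ∈ W') :
    Tendsto (fun j => inner ℝ w (SK (K j))) atTop (𝓝 (inner ℝ w (SK L))) := by
  induction hw using Submodule.span_induction with
  | mem y hy =>
    obtain ⟨B, hB, rfl⟩ := hy
    simp only [← zq_eq hL hB, ← zq_eq (hK _) hB]
    exact zq_tendsto hK hL hc hδ hB
  | zero => simp
  | add y z _ _ hy hz => simp only [inner_add_left]; exact hy.add hz
  | smul c y _ hy => simp only [inner_smul_left]; exact hy.const_mul _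

lemma φ_tendsto {K : ℕ → Set E4} {L : Set E4} {δ : ℕ → ℝ} (hK : ∀ j, IsB (K j)) (hL : IsB L)
    (hc : ∀ j, Close (δ j) (K j) L) (hδ : Tendsto δ atTop (𝓝 0)) :
    Tendsto (fun j => φ (K j)) atTop (𝓝 (φ L)) := by
  let b := stdOrthonormalBasis ℝ Rep.W
  have h1 : ∀ x : Rep.W, x = ∑ i, inner ℝ (b i) x • b i := fun x => (b.sum_repr' x).symm
  rw [h1 (φ L)]
  have h2 : (fun j => φ (K j)) = fun j => ∑ i, inner ℝ (b i) (φ (K j)) • b i := by
    ext j; rw [← h1]
  rw [h2]
  refine tendsto_finsetSum _ fun i _ => ?_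
  refine Tendsto.smul_const ?_ _
  simp only [inner_φ]
  exact tendsto_aux hK hL hc hδ (W_le (b i).2)

lemma equi_aux {K : Set E4} (hK : IsB K) (g : Rep.SL4) {w : T4} (hw : w ∈ W') :
    inner ℝ w (SK (op (g : Mat) '' K)) = inner ℝ (Rep.act ((g⁻¹ : Rep.SL4) : Mat) w) (SK K) := by
  have hg : (g : Mat).det = 1 := g.2
  have hg0 : (g : Mat).det ≠ 0 := by rw [hg]; exact one_ne_zero
  have hgi : ((g⁻¹ : Rep.SL4) : Mat) = (g : Mat)⁻¹ := by
    rw [Matrix.SpecialLinearGroup.coe_inv, Matrix.inv_def, hg]; simp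
  induction hw using Submodule.span_induction with
  | mem y hy =>
    obtain ⟨B, hB, rfl⟩ := hy
    rw [← zq_eq (hK.op_image hg0) hB, ← zq_equi K hB hg, lam_eq, Rep.act_lam, ← lam_eq, hgi]
    have hB' : ((g : Mat)⁻¹ * B).det ≠ 0 := by
      rw [Matrix.det_mul]; exact mul_ne_zero (inv_det_ne hg0) hB
    rw [zq_eq hK hB']
    congr 2
    rw [Matrix.transpose_mul]
    simp only [Matrix.mul_assoc]
  | zero => simp
  | add y z _ _ hy hz => simp only [map_add, inner_add_left]; rw [hy, hz]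
  | smul c y _ hy => simp only [map_smul, inner_smul_left]; rw [hy]

lemma φ_equi {K : Set E4} (hK : IsB K) (g : Rep.SL4) :
    φ (op (g : Mat) '' K) = Rep.rho g (φ K) := by
  apply ext_inner_left ℝ
  intro w
  rw [inner_φ, equi_aux hK g (W_le w.2)]
  have h1 : inner ℝ w (Rep.rho g (φ K)) = inner ℝ (Rep.rho (Rep.tr g) w) (φ K) := by
    rw [real_inner_comm, Rep.rho_adj, real_inner_comm]
  rw [h1, inner_φ, Rep.rho_coe, Rep.tr_inv_coe, Matrix.transpose_transpose]

end Pool.Agent.H821R4
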