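import Mathlib
import Pool.Agent.H821R4.Fin

/-! Evaluation on balls. -/

namespace Pool.Agent.H821R4

open Set Metric MeasureTheory Filter Topology Matrix Pool.Agent.H821R4.Stmt
open scoped Pointwise

set_option maxHeartbeats 4000000

lemma isB_ball {r : ℝ} (hr : 0 < r) : IsB (closedBall (0:E4) r) :=
  ⟨isCompact_closedBall _ _, convex_closedBall _ _, by
    rw [interior_closedBall _ hr.ne']; simpa using hr⟩

lemma proj_ball {r : ℝ} (hr : 0 < r) (z : E4) :
    IsProj (closedBall (0:E4) r) z (if ‖z‖ ≤ r then z else (r / ‖z‖) • z) := by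
  by_cases h : ‖z‖ ≤ r
  · rw [if_pos h]
    exact ⟨by simpa using h, fun y _ => by simp⟩
  · rw [if_neg h]
    push Not at h
    have hz : 0 < ‖z‖ := hr.trans h
    refine ⟨?_, fun y hy => ?_⟩
    · rw [mem_closedBall_zero_iff, norm_smul, Real.norm_eq_abs, abs_of_pos (by positivity),
        div_mul_cancel₀ _ hz.ne']
    · rw [mem_closedBall_zero_iff] at hy
      have e1 : z - (r / ‖z‖) • z = (1 - r / ‖z‖) • z := by module
      rw [e1, inner_smul_left, inner_sub_right, inner_smul_right, real_inner_self_eq_norm_sq]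
      have h1 : inner ℝ z y ≤ ‖z‖ * r := (real_inner_le_norm z y).trans (by gcongr)
      have h2 : r / ‖z‖ * ‖z‖ ^ 2 = ‖z‖ * r := by field_simp
      have h3 : 0 ≤ 1 - r / ‖z‖ := by
        rw [sub_nonneg, div_le_one hz]; exact h.le
      simp only [conj_trivial]
      exact mul_nonpos_of_nonneg_of_nonpos h3 (by linarith)

lemma intg_ball {r : ℝ} (hr : 0 < r) (z : E4) :
    intg (closedBall (0:E4) r) z = bump (r * max (‖z‖ - r) 0) := by
  unfold intg
  rw [(proj_ball hr z).proj_eq]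
  by_cases h : ‖z‖ ≤ r
  · rw [if_pos h, max_eq_right (by linarith)]; simp
  · rw [if_neg h]
    push Not at h
    have hz : 0 < ‖z‖ := hr.trans h
    rw [max_eq_left (by linarith)]
    congr 1
    have e1 : z - (r / ‖z‖) • z = (1 - r / ‖z‖) • z := by module
    rw [e1, inner_smul_left, inner_smul_right, real_inner_self_eq_norm_sq]
    simp only [conj_trivial]
    field_simp

lemma radial {r : ℝ} (hr : 0 < r) :
    ∫ y in Ioi (0:ℝ), y ^ 3 * bump (r * max (y - r) 0) =
    r ^ 4 / 4 + r ^ 2 / 2 + 1 / 2 + 1 / (4 * r ^ 2) + 1 / (20 * r ^ 4) := by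
  have hR : r < r + 1 / r := by
    have : 0 < 1 / r := by positivity
    linarith
  have h1 : ∫ y in Ioi (0:ℝ), y ^ 3 * bump (r * max (y - r) 0) =
      ∫ y in Ioc (0:ℝ) (r + 1 / r), y ^ 3 * bump (r * max (y - r) 0) := by
    refine (setIntegral_eq_of_subset_of_forall_diff_eq_zero measurableSet_Ioi
      (fun y hy => hy.1) ?_)
    intro y hy
    have hy2 : r + 1 / r < y := by
      by_contra hcon
      push Not at hcon
      exact hy.2 ⟨hy.1, hcon⟩
    rw [bump_zero, mul_zero]
    rw [max_eq_left (by linarith)]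
    have : r * (1 / r) ≤ r * (y - r) := by
      apply mul_le_mul_of_nonneg_left _ hr.le
      linarith
    rwa [mul_one_div_cancel hr.ne'] at this
  rw [h1, ← intervalIntegral.integral_of_le (by linarith)]
  have hc : Continuous (fun y : ℝ => y ^ 3 * bump (r * max (y - r) 0)) :=
    (continuous_pow 3).mul (bump_cont.comp (by fun_prop))
  rw [← intervalIntegral.integral_add_adjacent_intervals (b := r)
    (hc.intervalIntegrable _ _) (hc.intervalIntegrable _ _)]
  have h2 : ∫ y in (0:ℝ)..r, y ^ 3 * bump (r * max (y - r) 0) = ∫ y in (0:ℝ)..r, y ^ 3 := by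
    apply intervalIntegral.integral_congr
    intro y hy
    rw [uIcc_of_le hr.le] at hy
    simp only
    rw [max_eq_right (by linarith [hy.2]), mul_zero]
    simp [bump]
  have h3 : ∫ y in r..(r + 1 / r), y ^ 3 * bump (r * max (y - r) 0) =
      ∫ y in r..(r + 1 / r), ((1 + r ^ 2) * y ^ 3 - r * y ^ 4) := by
    apply intervalIntegral.integral_congr
    intro y hy
    rw [uIcc_of_le hR.le] at hy
    simp only
    rw [max_eq_left (by linarith [hy.1])]
    have : r * (y - r) ≤ 1 := by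
      have h5 : r * (y - r) ≤ r * (1 / r) := by
        apply mul_le_mul_of_nonneg_left _ hr.le
        linarith [hy.2]
      rwa [mul_one_div_cancel hr.ne'] at h5
    unfold bump
    rw [max_eq_left (by linarith)]
    ring
  have i1 : IntervalIntegrable (fun y : ℝ => (1 + r ^ 2) * y ^ 3) volume r (r + 1 / r) :=
    Continuous.intervalIntegrable (by fun_prop) _ _
  have i2 : IntervalIntegrable (fun y : ℝ => r * y ^ 4) volume r (r + 1 / r) :=
    Continuous.intervalIntegrable (by fun_prop) _ _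
  rw [h2, h3, intervalIntegral.integral_sub i1 i2,
    intervalIntegral.integral_const_mul, intervalIntegral.integral_const_mul,
    integral_pow, integral_pow, integral_pow]
  have hR' : r + 1 / r = (r ^ 2 + 1) / r := by field_simp
  rw [hR', div_pow, div_pow]
  push_cast
  field_simp
  ring

lemma zeta_ball {r : ℝ} (hr : 0 < r) : zeta (closedBall (0:E4) r) =
    4 * (volume : Measure E4).real (ball 0 1) *
    (r ^ 4 / 4 + r ^ 2 / 2 + 1 / 2 + 1 / (4 * r ^ 2) + 1 / (20 * r ^ 4)) := by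
  unfold zeta
  simp only [intg_ball hr]
  rw [integral_fun_norm_addHaar volume (fun y => bump (r * max (y - r) 0))]
  simp only [finrank_euclideanSpace, Fintype.card_fin, smul_eq_mul]
  rw [show (4 - 1 : ℕ) = 3 from rfl, radial hr]
  simp only [nsmul_eq_mul]
  push_cast
  ring

lemma zf_ball {b : ℝ} (hb : 0 < b) : zf (b • (1 : Mat)) (closedBall (0:E4) 1) =
    4 * (volume : Measure E4).real (ball 0 1) *
    (1 / 4 + b ^ 2 / 2 + b ^ 4 / 2 + b ^ 6 / 4 + b ^ 8 / 20) := by
  unfold zf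
  have h1 : (b • (1 : Mat))⁻¹ = b⁻¹ • (1 : Mat) := by
    apply Matrix.inv_eq_right_inv
    rw [Matrix.smul_mul, Matrix.mul_smul, Matrix.one_mul, smul_smul, mul_inv_cancel₀ hb.ne',
      one_smul]
  have h2 : op (b⁻¹ • (1 : Mat)) '' (closedBall (0:E4) 1) = closedBall (0:E4) b⁻¹ := by
    have : ∀ x : E4, op (b⁻¹ • (1 : Mat)) x = b⁻¹ • x := by
      intro x
      simp [op]
    have h3 : op (b⁻¹ • (1 : Mat)) '' (closedBall (0:E4) 1) = b⁻¹ • closedBall (0:E4) 1 := by
      ext y
      simp only [mem_image, this, mem_smul_set]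
    rw [h3, smul_unitClosedBall]
    congr 1
    rw [Real.norm_eq_abs, abs_of_pos (by positivity)]
  rw [h1, h2, zeta_ball (by positivity), Matrix.det_smul, Matrix.det_one]
  simp only [Fintype.card_fin, mul_one]
  rw [abs_of_pos (by positivity)]
  field_simp

lemma zq_ball : zq 1 (closedBall (0:E4) 1) = 2 * (volume : Measure E4).real (ball 0 1) := by
  unfold zq
  have h : ∀ k : Fin 5, zf (Real.sqrt ((k : ℝ) + 1) • (1 : Mat)) (closedBall (0:E4) 1) =
      4 * (volume : Measure E4).real (ball 0 1) *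
      (1 / 4 * ((k : ℝ) + 1) ^ 0 + 1 / 2 * ((k : ℝ) + 1) ^ 1 + 1 / 2 * ((k : ℝ) + 1) ^ 2
        + 1 / 4 * ((k : ℝ) + 1) ^ 3 + 1 / 20 * ((k : ℝ) + 1) ^ 4) := by
    intro k
    have hk : (0:ℝ) < (k : ℝ) + 1 := by positivity
    rw [zf_ball (Real.sqrt_pos.2 hk)]
    have e2 : Real.sqrt ((k : ℝ) + 1) ^ 2 = (k : ℝ) + 1 := Real.sq_sqrt hk.le
    have e4 : Real.sqrt ((k : ℝ) + 1) ^ 4 = ((k : ℝ) + 1) ^ 2 := by
      rw [show (4 : ℕ) = 2 * 2 from rfl, pow_mul, e2]
    have e6 : Real.sqrt ((k : ℝ) + 1) ^ 6 = ((k : ℝ) + 1) ^ 3 := by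
      rw [show (6 : ℕ) = 2 * 3 from rfl, pow_mul, e2]
    have e8 : Real.sqrt ((k : ℝ) + 1) ^ 8 = ((k : ℝ) + 1) ^ 4 := by
      rw [show (8 : ℕ) = 2 * 4 from rfl, pow_mul, e2]
    rw [e2, e4, e6, e8]
    ring
  simp only [h]
  have h0 := wt_spec 0 (by norm_num)
  have h1 := wt_spec 1 (by norm_num)
  have h2 := wt_spec 2 (by norm_num)
  have h3 := wt_spec 3 (by norm_num)
  have h4 := wt_spec 4 (by norm_num)
  simp only [Fin.sum_univ_five] at h0 h1 h2 h3 h4 ⊢
  norm_num at h0 h1 h2 h3 h4 ⊢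
  linear_combination (volume : Measure E4).real (ball 0 1) * (h0 + 2 * h1 + 2 * h2 + h3 + h4 / 5)

lemma delta_sum (i k : Fin 4) : ∑ a : Fin 4, ((Pi.single a (1:ℝ) : Fin 4 → ℝ) i *
    (Pi.single a (1:ℝ) : Fin 4 → ℝ) k) = (1 : Mat) i k := by
  simp only [Pi.single_apply, Matrix.one_apply]
  simp [eq_comm]

lemma lam_one_mem : lam (1 : Mat) ∈ Rep.W := by
  have h : lam (1 : Mat) = (1 / 2 : ℝ) • ∑ a : Fin 4, ∑ b : Fin 4,
      Rep.sq (Pi.single a 1) (Pi.single b 1) := by
    ext ⟨i, j, k, l⟩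
    simp only [PiLp.smul_apply, smul_eq_mul, WithLp.ofLp_sum, Finset.sum_apply]
    let d : Fin 4 → Fin 4 → ℝ := fun a i => (Pi.single a (1:ℝ) : Fin 4 → ℝ) i
    have h1 : ∀ a b : Fin 4, Rep.sq (Pi.single a 1) (Pi.single b 1) (i, j, k, l) =
      (d a i * d a k) * (d b j * d b l) - (d a i * d a l) * (d b j * d b k)
      - (d a j * d a k) * (d b i * d b l) + (d a j * d a l) * (d b i * d b k) := by
      intro a b
      simp only [Rep.sq, d]
      ring
    simp only [h1, Finset.sum_add_distrib, Finset.sum_sub_distrib, ← Finset.mul_sum,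
      ← Finset.sum_mul]
    simp only [d, delta_sum, lam]
    ring
  rw [h]
  exact Rep.W.smul_mem _ (Rep.W.sum_mem fun a _ => Rep.W.sum_mem fun b _ => Rep.sq_mem _ _)

lemma φ_ball_ne : φ (closedBall (0:E4) 1) ≠ 0 := by
  intro h
  have h1 := inner_φ ⟨lam (1 : Mat), lam_one_mem⟩ (closedBall (0:E4) 1)
  rw [h, inner_zero_right] at h1
  have h2 := zq_eq (isB_ball one_pos) (B := (1 : Mat)) (by simp)
  rw [Matrix.transpose_one, Matrix.mul_one, ← h1, zq_ball] at h2
  have h3 : 0 < (volume : Measure E4).real (ball 0 1) := by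
    apply ENNReal.toReal_pos
    · exact (measure_ball_pos _ _ one_pos).ne'
    · exact measure_ball_lt_top.ne
  linarith

end Pool.Agent.H821R4
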